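import Pool.Agent.H96hom.Init

set_option autoImplicit false

namespace Pool.Agent.H96hom

universe u v

open Set

open Cardinal in
theorem exists_sys : ∃ (C : Type) (_ : LinearOrder C)
    (_ : WellFoundedLT C) (_ : Nonempty C) (S : Sys C), Full S ∧ ℵ₀ < #C ∧
      ∀ c : C, #(Iic c) < #C := by
  classical
  set lam : Cardinal.{0} := 𝔠 with hlam
  have h7 : ℵ₀ ≤ lam := aleph0_le_continuum
  let C : Type := lam.ord.ToType
  have hC : #C = lam := mk_ord_toType lam
  have hCI : Infinite C := by rw [infinite_iff, hC]; exact h7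
  have hIio : ∀ i : C, #(Iio i) < lam := by
    intro i
    have := mk_Iio_lt i (by simp [C])
    rwa [hC] at this
  have hcof : ℵ₀ < Order.cof C := by
    have : Order.cof C = lam.ord.cof := Ordinal.cof_toType _
    rw [this, hlam, ← two_power_aleph0]
    exact lt_cof_ord_power le_rfl (by exact one_lt_two)
  have hbd : ∀ A : Set C, #A ≤ ℵ₀ → ∃ b : C, ∀ a ∈ A, a < b := by
    intro A hA
    have : ¬ IsCofinal A := by
      intro h
      have := Order.cof_le h
      exact absurd (this.trans hA) (not_le.2 hcof)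
    rw [IsCofinal] at this
    push Not at this
    exact this
  let O : Type := {F : ℕ → (C →₀ ℝ) × ℝ // FD F ∨ Lim F}
  have hO : #O ≤ lam := by
    have e1 : #(C →₀ ℝ) = lam := by
      rw [mk_finsupp_lift_of_infinite]
      simp only [mk_real, lift_uzero, hC]
      exact max_self _
    have e2 : #((C →₀ ℝ) × ℝ) = lam := by
      rw [mk_prod]
      simp only [mk_real, lift_uzero, e1]
      exact continuum_mul_self
    have e3 : #(ℕ → (C →₀ ℝ) × ℝ) = lam := by
      rw [mk_arrow, lift_id, lift_id, e2, mk_nat, hlam, continuum_power_aleph0]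
    rw [← e3]
    exact mk_subtype_le _
  have hOne : Nonempty O := ⟨⟨fun _ => (0, 1), Or.inl ⟨∅, fun _ => by simp⟩⟩⟩
  obtain ⟨e⟩ : Nonempty (C ≃ O × C) := by
    rw [← Cardinal.eq, mk_prod, lift_id, lift_id, hC]
    refine le_antisymm ?_ ?_
    · have : 1 ≤ #O := Cardinal.one_le_iff_ne_zero.2 (mk_ne_zero O)
      calc lam = 1 * lam := (one_mul _).symm
        _ ≤ #O * lam := mul_le_mul' this le_rfl
    · exact (mul_le_mul' hO le_rfl).trans (mul_eq_self h7).le
  let S : Sys C := ⟨fun c => (e c).1.1, fun c => (e c).1.2⟩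
  have hfib : ∀ F : ℕ → (C →₀ ℝ) × ℝ, (FD F ∨ Lim F) → lam ≤ #{c : C // S.dec c = F} := by
    intro F hF
    rw [← hC]
    refine mk_le_of_injective (f := fun x => ⟨e.symm (⟨F, hF⟩, x), by simp [S]⟩) ?_
    intro x y h
    simpa using h
  refine ⟨C, inferInstance, inferInstance, inferInstance, S, ?_, ?_, ?_⟩
  · intro F hF A hA
    rw [hC] at hA
    obtain ⟨b, hb⟩ := hbd (⋃ j, ((F j).1.support : Set C))
      (mk_le_aleph0_iff.2 (countable_iUnion fun j => Finset.countable_toSet _).to_subtype)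
    have : ∃ c, S.dec c = F ∧ c ∉ A ∪ Iio b := by
      by_contra hcon
      push Not at hcon
      have h10 : #{c : C // S.dec c = F} ≤ #(A ∪ Iio b : Set C) :=
        mk_le_of_injective (f := fun x => (⟨x.1, hcon x.1 x.2⟩ : (A ∪ Iio b : Set C))) (by
          intro x y h
          exact Subtype.ext (by simpa using h))
      have h11 : #(A ∪ Iio b : Set C) < lam :=
        (mk_union_le _ _).trans_lt (add_lt_of_lt h7 hA (hIio b))
      exact absurd ((hfib F hF).trans h10) (not_le.2 h11)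
    obtain ⟨c, hc, hbc⟩ := this
    refine ⟨c, fun h => hbc (Or.inl h), hc, fun j i hi => ?_⟩
    have h1 := hb i (mem_iUnion.2 ⟨j, hi⟩)
    have h2 : b ≤ c := not_lt.1 fun h => hbc (Or.inr h)
    exact h1.trans_le h2
  · rw [hC]
    exact aleph0_lt_continuum
  · intro c
    rw [hC]
    have h1 : (Iic c : Set C) = insert c (Iio c) := by
      ext x
      rw [mem_Iic, mem_insert_iff, mem_Iio, le_iff_eq_or_lt]
    rw [h1]
    exact (mk_insert_le).trans_lt (add_lt_of_lt h7 (hIio c) (one_lt_aleph0.trans_le h7))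

open Cardinal in
theorem exists_units {C : Type u} [LinearOrder C] [WellFoundedLT C] (S : Sys C) (hS : Full S)
    (hinf : ℵ₀ < #C) : ∃ s : ℕ → C, Function.Injective s ∧ ∀ n, IsUnit1 S (s n) := by
  have hi : {c | IsUnit1 S c}.Infinite := by
    intro hfin
    obtain ⟨c, hc, hdc, -⟩ := hS (fun _ => (0, 1)) (Or.inl ⟨∅, fun _ => by simp⟩)
      {c | IsUnit1 S c} (hfin.lt_aleph0.trans hinf)
    exact hc (fun j => by rw [hdc])
  let em := Set.Infinite.natEmbedding _ hi
  exact ⟨fun n => (em n).1, fun a b h => em.injective (Subtype.ext h), fun n => (em n).2⟩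

theorem not_sep {C : Type} [LinearOrder C] [WellFoundedLT C] [Nonempty C] (S : Sys C)
    (hS : Full S) (s : ℕ → C) (hs : Function.Injective s) (h1 : ∀ n, IsUnit1 S (s n)) :
    ∃ (T : Type) (_ : NormedAddCommGroup T) (_ : NormedSpace ℝ T) (_ : CompleteSpace T)
      (_ : TopologicalSpace.SeparableSpace T) (P : Submodule ℝ T) (_ : IsClosed (P : Set T))
      (f : P →ₗᵢ[ℝ] XX S), ∀ g : T →ₗᵢ[ℝ] XX S, ¬ ∀ x : P, g x = f x := by
  have hcl : IsClosed (XX S : Set (Amb S)) := XX_closed S hS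
  have hcs : CompleteSpace (XX S) := hcl.completeSpace_coe
  let e : ℕ → XX S := fun n => ⟨ee S s n, LinearMap.mem_range_self _ _⟩
  let Q : Submodule ℝ (XX S) := (Submodule.span ℝ (range e)).topologicalClosure
  have hQc : IsClosed (Q : Set (XX S)) := Submodule.isClosed_topologicalClosure _
  have hQcs : CompleteSpace Q := hQc.completeSpace_coe
  have hQs : TopologicalSpace.SeparableSpace Q := by
    have h2 : TopologicalSpace.IsSeparable (Q : Set (XX S)) := by
      have : TopologicalSpace.IsSeparable ((Submodule.span ℝ (range e) :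
        Submodule ℝ (XX S)) : Set (XX S)) := ((countable_range e).isSeparable).span (R := ℝ)
      exact this.closure
    exact h2.separableSpace
  have heQ : ∀ n, e n ∈ Q := fun n => Submodule.le_topologicalClosure _
    (Submodule.subset_span ⟨n, rfl⟩)
  let P : Submodule ℝ (Q × ℝ) := LinearMap.ker (LinearMap.snd ℝ Q ℝ)
  have hP : IsClosed (P : Set (Q × ℝ)) := by
    have : (P : Set (Q × ℝ)) = {t | t.2 = 0} := rfl
    rw [this]
    exact isClosed_eq continuous_snd continuous_const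
  let f : P →ₗᵢ[ℝ] XX S := ⟨Q.subtype.comp ((LinearMap.fst ℝ Q ℝ).comp P.subtype), by
    rintro ⟨⟨x, y⟩, hy⟩
    have hy' : y = 0 := hy
    subst hy'
    change ‖(x : XX S)‖ = ‖((x, 0) : Q × ℝ)‖
    rw [Prod.norm_def, norm_zero, max_eq_left (norm_nonneg _)]
    rfl⟩
  refine ⟨Q × ℝ, inferInstance, inferInstance, inferInstance, inferInstance, P, hP, f, ?_⟩
  intro g hg
  have he1 : ∀ n, ‖e n‖ ≤ 1 := fun n => (h1 n).norm_le
  obtain ⟨v, hv⟩ := (g (0, 1)).2
  have hz : ‖g (0, 1)‖ = 1 := by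
    rw [g.norm_map, Prod.norm_def, norm_zero, norm_one]
    exact max_eq_right zero_le_one
  obtain ⟨N, hN⟩ := LL_all S s hs h1 v (1 / 2) (by norm_num)
  have h2 := hN N le_rfl
  rw [hv] at h2
  have h3 : ‖(g (0, 1) : Amb S) + ee S s N‖ ≤ 1 := by
    have h4 : g ((⟨e N, heQ N⟩ : Q), 0) = e N := hg ⟨(⟨e N, heQ N⟩, 0), rfl⟩
    have h5 : g (0, 1) + e N = g ((⟨e N, heQ N⟩ : Q), 1) := by
      have h8 : (((⟨e N, heQ N⟩ : Q), 1) : Q × ℝ) = (0, 1) + ((⟨e N, heQ N⟩ : Q), 0) := by
        ext <;> simp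
      rw [h8, map_add, h4]
    have h6 : (g (0, 1) : Amb S) + ee S s N = ((g (0, 1) + e N : XX S) : Amb S) := rfl
    rw [h6, h5]
    change ‖g ((⟨e N, heQ N⟩ : Q), 1)‖ ≤ 1
    rw [g.norm_map, Prod.norm_def]
    exact max_le (he1 N) (by simp)
  have h7 : ‖(g (0, 1) : Amb S)‖ = 1 := hz
  linarith

end Pool.Agent.H96hom
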