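import Pool.Agent.H96hom.Tower

set_option autoImplicit false

namespace Pool.Agent.H96hom

universe u v

open Set

open scoped Cardinal

variable {C : Type u} [LinearOrder C] [WellFoundedLT C]

/-- one step of the closure under dependencies -/
def hs1 (S : Sys C) (A : Set C) : Set C := A ∪ ⋃ c ∈ A, ⋃ j, ((S.dec c j).1.support : Set C)

theorem exists_hc (S : Sys C) (c : C) : ∃ f : ℕ → C, c ∈ range f ∧ HC S (range f) := by
  have hct : ∀ n : ℕ, ((hs1 S)^[n] {c}).Countable := by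
    intro n
    induction n with
    | zero => exact countable_singleton c
    | succ n ih =>
      rw [Function.iterate_succ_apply']
      exact ih.union (ih.biUnion fun c _ => countable_iUnion fun j => Finset.countable_toSet _)
  have hne : (⋃ n : ℕ, (hs1 S)^[n] {c}).Nonempty := ⟨c, mem_iUnion.2 ⟨0, rfl⟩⟩
  obtain ⟨f, hf⟩ := (countable_iUnion hct).exists_eq_range hne
  refine ⟨f, ?_, ?_⟩
  · rw [← hf]; exact mem_iUnion.2 ⟨0, rfl⟩
  · rw [← hf]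
    intro d hd _ j i hi
    obtain ⟨n, hn⟩ := mem_iUnion.1 hd
    refine mem_iUnion.2 ⟨n + 1, ?_⟩
    rw [Function.iterate_succ_apply']
    exact Or.inr (mem_iUnion₂.2 ⟨d, hn, mem_iUnion.2 ⟨j, hi⟩⟩)

/-- finite-dimensional partial isometries of the space -/
structure FI (S : Sys C) (G : Submodule ℝ (Amb S × Amb S)) : Prop where
  fd : FiniteDimensional ℝ G
  iso : ∀ p ∈ G, ‖p.1‖ = ‖p.2‖
  m1 : ∀ p ∈ G, p.1 ∈ XX S
  m2 : ∀ p ∈ G, p.2 ∈ XX S

theorem FI.swap {S : Sys C} {G : Submodule ℝ (Amb S × Amb S)} (h : FI S G) : FI S (sw G) where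
  fd := by
    have := h.fd
    have h1 : sw G = G.map (LinearEquiv.prodComm ℝ (Amb S) (Amb S)).toLinearMap := by
      ext p
      rw [mem_sw, Submodule.mem_map]
      constructor
      · intro hp
        exact ⟨_, hp, rfl⟩
      · rintro ⟨q, hq, rfl⟩
        exact hq
    rw [h1]
    infer_instance
  iso := fun _ hp => (h.iso _ hp).symm
  m1 := fun _ hp => h.m2 _ hp
  m2 := fun _ hp => h.m1 _ hp

theorem FI.one [Nonempty C] {S : Sys C} (hS : Full S) {G : Submodule ℝ (Amb S × Amb S)}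
    (hG : FI S G) (t : XX S) :
    ∃ G', G ≤ G' ∧ FI S G' ∧ ∃ y, ((t : Amb S), y) ∈ G' := by
  have := hG.fd
  let L : G →ₗ[ℝ] Amb S := (LinearMap.fst ℝ (Amb S) (Amb S)).comp G.subtype
  let W : G →ₗ[ℝ] XX S := ((LinearMap.snd ℝ (Amb S) (Amb S)).comp G.subtype).codRestrict (XX S)
    (fun p => hG.m2 _ p.2)
  have hW : ∀ p : G, (W p : Amb S) = p.1.2 := fun p => rfl
  have hL : ∀ p : G, L p = p.1.1 := fun p => rfl
  obtain ⟨r, hr⟩ := L.rangeRestrict.exists_rightInverse_of_surjective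
    (LinearMap.range_rangeRestrict L)
  have hr' : ∀ y : LinearMap.range L, L (r y) = y := fun y =>
    congrArg Subtype.val (LinearMap.congr_fun hr y)
  let w : LinearMap.range L →ₗᵢ[ℝ] XX S := ⟨W.comp r, fun y => by
    change ‖(W (r y) : Amb S)‖ = ‖(y : Amb S)‖
    rw [hW, ← hG.iso _ (r y).2, ← hL, hr']⟩
  have hw : ∀ p : G, w ⟨L p, LinearMap.mem_range_self L p⟩ = W p := by
    intro p
    have h1 : L (r ⟨L p, LinearMap.mem_range_self L p⟩ - p) = 0 := by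
      rw [map_sub, hr', sub_self]
    have h2 : W (r ⟨L p, LinearMap.mem_range_self L p⟩ - p) = 0 := by
      apply Subtype.ext
      rw [hW]
      apply norm_eq_zero.1
      rw [← hG.iso _ (Subtype.mem _), ← hL, h1, norm_zero]
    rw [map_sub] at h2
    exact sub_eq_zero.1 h2
  obtain ⟨e, he⟩ := one_dim' S hS (LinearMap.range L) w (t : Amb S)
  have hmem : ∀ p ∈ G ⊔ Submodule.span ℝ {((t : Amb S), (e : Amb S))}, ∃ q ∈ G, ∃ μ : ℝ,
      p = q + μ • ((t : Amb S), (e : Amb S)) := by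
    intro p hp
    obtain ⟨q, hq, z, hz, rfl⟩ := Submodule.mem_sup.1 hp
    obtain ⟨μ, rfl⟩ := Submodule.mem_span_singleton.1 hz
    exact ⟨q, hq, μ, rfl⟩
  refine ⟨G ⊔ Submodule.span ℝ {((t : Amb S), (e : Amb S))}, le_sup_left, ⟨inferInstance, ?_, ?_,
    ?_⟩, e, Submodule.mem_sup_right (Submodule.mem_span_singleton_self _)⟩
  · intro p hp
    obtain ⟨q, hq, μ, rfl⟩ := hmem p hp
    have h1 := he ⟨L ⟨q, hq⟩, LinearMap.mem_range_self L _⟩ μ
    rw [hw] at h1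
    exact h1.symm
  · intro p hp
    obtain ⟨q, hq, μ, rfl⟩ := hmem p hp
    exact (XX S).add_mem (hG.m1 q hq) ((XX S).smul_mem μ t.2)
  · intro p hp
    obtain ⟨q, hq, μ, rfl⟩ := hmem p hp
    exact (XX S).add_mem (hG.m2 q hq) ((XX S).smul_mem μ e.2)

theorem FI.ext [Nonempty C] {S : Sys C} (hS : Full S) {G : Submodule ℝ (Amb S × Amb S)}
    (hG : FI S G) (s : Finset C) :
    ∃ G', G ≤ G' ∧ FI S G' ∧ ∀ c ∈ s, (∃ y, (be S c, y) ∈ G') ∧ (∃ x, (x, be S c) ∈ G') := by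
  classical
  induction s using Finset.induction_on with
  | empty => exact ⟨G, le_rfl, hG, by simp⟩
  | insert c s _ ih =>
    obtain ⟨G1, h1, h2, h3⟩ := ih
    obtain ⟨G2, h4, h5, y, hy⟩ := h2.one hS ⟨be S c, LinearMap.mem_range_self _ _⟩
    obtain ⟨G3, h6, h7, x, hx⟩ := h5.swap.one hS ⟨be S c, LinearMap.mem_range_self _ _⟩
    have h8 : G2 ≤ sw G3 := sw_mono h6
    refine ⟨sw G3, h1.trans (h4.trans h8), h7.swap, fun d hd => ?_⟩
    rcases Finset.mem_insert.1 hd with rfl | hd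
    · exact ⟨⟨y, h8 hy⟩, ⟨x, hx⟩⟩
    · obtain ⟨⟨y', hy'⟩, ⟨x', hx'⟩⟩ := h3 d hd
      exact ⟨⟨y', h8 (h4 hy')⟩, ⟨x', h8 (h4 hx')⟩⟩

theorem FI.supp {S : Sys C} {G : Submodule ℝ (Amb S × Amb S)} (hG : FI S G) :
    ∃ s : Finset C, ∀ p ∈ G,
      (∃ v : C →₀ ℝ, v.support ⊆ s ∧ io S v = p.1) ∧
      (∃ v : C →₀ ℝ, v.support ⊆ s ∧ io S v = p.2) := by
  classical
  have := hG.fd
  obtain ⟨r, hr⟩ := exists_section S
  obtain ⟨s1, h1⟩ := fd_of_linear (r.comp (((LinearMap.fst ℝ (Amb S) (Amb S)).comp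
    G.subtype).codRestrict (XX S) (fun p => hG.m1 _ p.2)))
  obtain ⟨s2, h2⟩ := fd_of_linear (r.comp (((LinearMap.snd ℝ (Amb S) (Amb S)).comp
    G.subtype).codRestrict (XX S) (fun p => hG.m2 _ p.2)))
  refine ⟨s1 ∪ s2, fun p hp => ⟨⟨_, (h1 ⟨p, hp⟩).trans Finset.subset_union_left, hr _⟩,
    ⟨_, (h2 ⟨p, hp⟩).trans Finset.subset_union_right, hr _⟩⟩⟩

theorem exists_init [Nonempty C] {S : Sys C} (hS : Full S) {G0 : Submodule ℝ (Amb S × Amb S)}
    (hG : FI S G0) : ∃ (A : Set C) (G : Submodule ℝ (Amb S × Amb S)), G0 ≤ G ∧ Valid S A G A ∧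
      A.Countable := by
  classical
  choose hc hc1 hc2 using exists_hc S
  have hsp : ∀ G : {G // FI S G}, ∃ s : Finset C, ∀ p ∈ G.1,
      (∃ v : C →₀ ℝ, v.support ⊆ s ∧ io S v = p.1) ∧
      (∃ v : C →₀ ℝ, v.support ⊆ s ∧ io S v = p.2) := fun G => G.2.supp
  choose sp hsp using hsp
  have hnx : ∀ (G : {G // FI S G}) (s : Finset C), ∃ G' : {G // FI S G}, G.1 ≤ G'.1 ∧
      ∀ c ∈ s, (∃ y, (be S c, y) ∈ G'.1) ∧ (∃ x, (x, be S c) ∈ G'.1) := by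
    intro G s
    obtain ⟨G', h1, h2, h3⟩ := G.2.ext hS s
    exact ⟨⟨G', h2⟩, h1, h3⟩
  choose nx hnx1 hnx2 using hnx
  let tk : ℕ → Finset C → Finset C := fun n s => s.biUnion fun c => (Finset.range n).image (hc c)
  let st : ℕ → {G // FI S G} × Finset C := fun n => Nat.rec (⟨G0, hG⟩, sp ⟨G0, hG⟩)
    (fun n t => (nx t.1 (tk n t.2), t.2 ∪ sp (nx t.1 (tk n t.2)))) n
  have hst : ∀ n, st (n + 1) = (nx (st n).1 (tk n (st n).2),
      (st n).2 ∪ sp (nx (st n).1 (tk n (st n).2))) := fun n => rfl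
  have hG1 : ∀ n, (st n).1.1 ≤ (st (n + 1)).1.1 := fun n => by
    rw [hst]; exact hnx1 _ _
  have hs1 : ∀ n, (st n).2 ⊆ (st (n + 1)).2 := fun n => by
    rw [hst]; exact Finset.subset_union_left
  have hmG : Monotone fun n => (st n).1.1 := monotone_nat_of_le_succ hG1
  have hms : Monotone fun n => (st n).2 := monotone_nat_of_le_succ hs1
  have hsup : ∀ n, sp (st n).1 ⊆ (st n).2 := by
    intro n
    cases n with
    | zero => exact subset_rfl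
    | succ n => rw [hst]; exact Finset.subset_union_right
  have htk : ∀ n, ∀ d ∈ tk n (st n).2, (∃ y, (be S d, y) ∈ (st (n + 1)).1.1) ∧
      (∃ x, (x, be S d) ∈ (st (n + 1)).1.1) := by
    intro n
    rw [hst]
    exact hnx2 _ _
  have hmem : ∀ p, p ∈ (⨆ n, (st n).1.1) ↔ ∃ n, p ∈ (st n).1.1 := by
    intro p
    exact Submodule.mem_iSup_of_directed _ hmG.directed_le
  let A : Set C := ⋃ n : ℕ, ⋃ c : (st n).2, range (hc c)
  have hA : HC S A := HC.iUnion fun n => HC.iUnion fun c => hc2 c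
  have hAd : ∀ d ∈ A, ∃ n, (∃ y, (be S d, y) ∈ (st (n + 1)).1.1) ∧
      (∃ x, (x, be S d) ∈ (st (n + 1)).1.1) := by
    intro d hd
    obtain ⟨n, hn⟩ := mem_iUnion.1 hd
    obtain ⟨c, hcd⟩ := mem_iUnion.1 hn
    obtain ⟨m, rfl⟩ := hcd
    refine ⟨max n (m + 1), htk _ _ ?_⟩
    refine Finset.mem_biUnion.2 ⟨c.1, hms (le_max_left n (m + 1)) c.2, ?_⟩
    exact Finset.mem_image.2 ⟨m, Finset.mem_range.2 (lt_of_lt_of_le (Nat.lt_succ_self m)
      (le_max_right _ _)), rfl⟩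
  have hsub : ∀ n, ∀ i ∈ sp (st n).1, i ∈ A := by
    intro n i hi
    exact mem_iUnion.2 ⟨n, mem_iUnion.2 ⟨⟨i, hsup n hi⟩, hc1 i⟩⟩
  refine ⟨A, ⨆ n, (st n).1.1, fun p hp => (hmem p).2 ⟨0, hp⟩, ⟨hA, hA, ?_, ?_, ?_, ?_, ?_⟩, ?_⟩
  · intro p hp
    obtain ⟨n, hn⟩ := (hmem p).1 hp
    exact (st n).1.2.iso p hn
  · intro d hd
    obtain ⟨n, ⟨y, hy⟩, -⟩ := hAd d hd
    exact ⟨y, (hmem _).2 ⟨n + 1, hy⟩⟩
  · intro p hp
    obtain ⟨n, hn⟩ := (hmem p).1 hp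
    obtain ⟨⟨v, hv, hvp⟩, -⟩ := hsp (st n).1 p hn
    exact ⟨v, fun i hi => hsub n i (hv hi), hvp⟩
  · intro d hd
    obtain ⟨n, -, ⟨y, hy⟩⟩ := hAd d hd
    exact ⟨y, (hmem _).2 ⟨n + 1, hy⟩⟩
  · intro p hp
    obtain ⟨n, hn⟩ := (hmem p).1 hp
    obtain ⟨-, ⟨v, hv, hvp⟩⟩ := hsp (st n).1 p hn
    exact ⟨v, fun i hi => hsub n i (hv hi), hvp⟩
  · exact countable_iUnion fun n => countable_iUnion fun c => countable_range _

theorem homog [Nonempty C] {S : Sys C} (hS : Full S) (hinf : ℵ₀ < #C)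
    (hC : ∀ c : C, #(Iic c) < #C) (E F : Submodule ℝ (XX S)) (hE : FiniteDimensional ℝ E)
    (h : E ≃ₗᵢ[ℝ] F) : ∃ g : XX S ≃ₗᵢ[ℝ] XX S, ∀ e : E, g e = h e := by
  let Φ : E →ₗ[ℝ] Amb S × Amb S := ((XX S).subtype.comp E.subtype).prod
    (((XX S).subtype.comp F.subtype).comp h.toLinearEquiv.toLinearMap)
  have hΦ : ∀ e : E, Φ e = (((e : XX S) : Amb S), ((h e : XX S) : Amb S)) := fun e => rfl
  have hFI : FI S (LinearMap.range Φ) := by
    refine ⟨inferInstance, ?_, ?_, ?_⟩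
    · rintro _ ⟨e, rfl⟩
      rw [hΦ]
      exact (h.norm_map e).symm
    · rintro _ ⟨e, rfl⟩
      exact (e : XX S).2
    · rintro _ ⟨e, rfl⟩
      exact (h e : XX S).2
  obtain ⟨A, G, h1, h2, h3⟩ := exists_init hS hFI
  have h3' : #A ≤ ℵ₀ := Cardinal.mk_le_aleph0_iff.2 h3.to_subtype
  obtain ⟨G', h4, h5⟩ := tw_total hS hinf hC h2 h3' h3'
  obtain ⟨g, hg⟩ := h5.toIso
  refine ⟨g, fun e => hg _ _ (h4 (h1 ⟨e, rfl⟩))⟩

end Pool.Agent.H96hom
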