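import Pool.Agent.H96hom.Seq

set_option autoImplicit false

namespace Pool.Agent.H96hom

universe u v

open Set

open scoped Cardinal

variable {C : Type u} [LinearOrder C] [WellFoundedLT C]

/-- basis vector of a code -/
noncomputable def be (S : Sys C) (c : C) : Amb S := io S (Finsupp.single c 1)

/-- a partial isometry between the spans of two closed sets of codes -/
structure Valid (S : Sys C) (A : Set C) (G : Submodule ℝ (Amb S × Amb S)) (B : Set C) :
    Prop where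
  hA : HC S A
  hB : HC S B
  iso : ∀ p ∈ G, ‖p.1‖ = ‖p.2‖
  f1 : ∀ a ∈ A, ∃ y, (be S a, y) ∈ G
  f2 : ∀ p ∈ G, ∃ v : C →₀ ℝ, (∀ i ∈ v.support, i ∈ A) ∧ io S v = p.1
  g1 : ∀ b ∈ B, ∃ x, (x, be S b) ∈ G
  g2 : ∀ p ∈ G, ∃ v : C →₀ ℝ, (∀ i ∈ v.support, i ∈ B) ∧ io S v = p.2

/-- the swapped relation -/
noncomputable def sw {S : Sys C} (G : Submodule ℝ (Amb S × Amb S)) : Submodule ℝ (Amb S × Amb S) :=
  G.comap ((LinearMap.snd ℝ (Amb S) (Amb S)).prod (LinearMap.fst ℝ (Amb S) (Amb S)))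

theorem mem_sw {S : Sys C} {G : Submodule ℝ (Amb S × Amb S)} {p : Amb S × Amb S} :
    p ∈ sw G ↔ (p.2, p.1) ∈ G := Iff.rfl

theorem sw_sw {S : Sys C} (G : Submodule ℝ (Amb S × Amb S)) : sw (sw G) = G := by
  ext p
  rfl

theorem sw_mono {S : Sys C} {G H : Submodule ℝ (Amb S × Amb S)} (h : G ≤ H) : sw G ≤ sw H :=
  fun _ hp => h hp

theorem Valid.swap {S : Sys C} {A B : Set C} {G : Submodule ℝ (Amb S × Amb S)}
    (h : Valid S A G B) : Valid S B (sw G) A where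
  hA := h.hB
  hB := h.hA
  iso := fun _ hp => (h.iso _ hp).symm
  f1 := fun a ha => h.g1 a ha
  f2 := fun _ hp => h.g2 _ hp
  g1 := fun a ha => h.f1 a ha
  g2 := fun _ hp => h.f2 _ hp

theorem half {S : Sys C} {A B : Set C} {G : Submodule ℝ (Amb S × Amb S)}
    (hV : Valid S A G B) {a b : C} (ha : Good S a)
    (hb : Good S b) (hbB : b ∉ B) (hsB : ∀ j, ∀ i ∈ (S.dec b j).1.support, i ∈ B)
    (h1 : ∀ j, (io S (S.dec a j).1, io S (S.dec b j).1) ∈ G)
    (h2 : ∀ j, (S.dec a j).2 = (S.dec b j).2) {p : Amb S × Amb S} (hp : p ∈ G) (μ : ℝ) :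
    ‖p.1 + μ • be S a‖ ≤ ‖p.2 + μ • be S b‖ := by
  obtain ⟨v, hv, hpv⟩ := hV.f2 p hp
  obtain ⟨w, hw, hpw⟩ := hV.g2 p hp
  obtain ⟨ψ, hψ, hn⟩ := exists_norm_io S (v + μ • Finsupp.single a 1)
  obtain ⟨Gx, hG1, hG2⟩ := dominated ((LinearMap.snd ℝ (Amb S) (Amb S)).comp G.subtype)
    (((at' S ⟨ψ, hψ⟩).toLinearMap.comp (LinearMap.fst ℝ (Amb S) (Amb S))).comp G.subtype)
    (fun x => (at'_norm S _ _).trans (le_of_eq (hV.iso _ x.2)))
  have hGx : ∀ q ∈ G, Gx q.2 = at' S ⟨ψ, hψ⟩ q.1 := fun q hq => hG2 ⟨q, hq⟩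
  obtain ⟨φ, hφ, h3, h4⟩ := point_ge S hV.hB hbB hsB (Gx.toLinearMap.comp (io S))
    (fun w => hG1 _) (ψ a) hb (by
      intro j
      change |Gx (io S (S.dec b j).1) + ψ a| ≤ _
      rw [hGx _ (h1 j), ← h2, at'_io]
      exact (hψ a).1 ha j)
  have h5 := le_norm_io S (w + μ • Finsupp.single b 1) hφ
  rw [map_add, map_smul, ev_single, h3 w (fun i hi => hw i hi), h4] at h5
  change |Gx (io S w) + μ • ψ a| ≤ _ at h5
  rw [hpw, hGx p hp, ← hpv, at'_io, map_add, map_smul, hpw] at h5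
  rw [map_add, map_smul, ev_single, map_add, map_smul, hpv] at hn
  unfold be
  rw [← hn]
  exact h5

theorem HC.insert {S : Sys C} {A : Set C} (hA : HC S A) {a : C}
    (ha : Good S a → ∀ j, ∀ i ∈ (S.dec a j).1.support, i ∈ A) : HC S (insert a A) := by
  rintro d (rfl | hd) hg j i hi
  · exact Or.inr (ha hg j i hi)
  · exact Or.inr (hA d hd hg j i hi)

theorem HC.iUnion {S : Sys C} {ι : Sort v} {A : ι → Set C} (hA : ∀ i, HC S (A i)) :
    HC S (⋃ i, A i) := by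
  intro d hd hg j i hi
  obtain ⟨k, hk⟩ := mem_iUnion.1 hd
  exact mem_iUnion.2 ⟨k, hA k d hk hg j i hi⟩

/-- transport of finite combinations -/
theorem Valid.transport {S : Sys C} {A B : Set C} {G : Submodule ℝ (Amb S × Amb S)}
    (hV : Valid S A G B) : ∃ L : (C →₀ ℝ) →ₗ[ℝ] (C →₀ ℝ),
      (∀ v : C →₀ ℝ, (∀ i ∈ v.support, i ∈ A) → (io S v, io S (L v)) ∈ G) ∧
      (∀ v : C →₀ ℝ, ∀ i ∈ (L v).support, i ∈ B) ∧
      (∀ s : Finset C, ∃ t : Finset C, ∀ v : C →₀ ℝ, v.support ⊆ s → (L v).support ⊆ t) := by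
  classical
  have h1 : ∀ c : C, ∃ w : C →₀ ℝ, (∀ i ∈ w.support, i ∈ B) ∧ (c ∈ A → (be S c, io S w) ∈ G) := by
    intro c
    by_cases hc : c ∈ A
    · obtain ⟨y, hy⟩ := hV.f1 c hc
      obtain ⟨w, hw, hwy⟩ := hV.g2 _ hy
      exact ⟨w, hw, fun _ => by rw [hwy]; exact hy⟩
    · exact ⟨0, by simp, fun h => absurd h hc⟩
  choose w hw1 hw2 using h1
  have hL : ∀ v : C →₀ ℝ, Finsupp.linearCombination ℝ w v = ∑ c ∈ v.support, v c • w c :=
    fun v => by rw [Finsupp.linearCombination_apply]; rfl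
  have hsup : ∀ v : C →₀ ℝ, (Finsupp.linearCombination ℝ w v).support ⊆
      v.support.biUnion fun c => (w c).support := by
    intro v
    rw [hL]
    refine (Finsupp.support_finsetSum).trans ?_
    intro i hi
    obtain ⟨c, hc, hi'⟩ := Finset.mem_biUnion.1 hi
    exact Finset.mem_biUnion.2 ⟨c, hc, Finsupp.support_smul hi'⟩
  refine ⟨Finsupp.linearCombination ℝ w, ?_, ?_, ?_⟩
  · intro v hv
    have h2 : (io S v, io S (Finsupp.linearCombination ℝ w v)) =
        ∑ c ∈ v.support, v c • (be S c, io S (w c)) := by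
      rw [Prod.ext_iff]
      constructor
      · rw [Prod.fst_sum]
        simp only [Prod.smul_fst, be]
        conv_lhs => rw [← Finsupp.sum_single v]
        rw [Finsupp.sum, map_sum]
        refine Finset.sum_congr rfl fun i _ => ?_
        rw [← map_smul]
        congr 1
        simp
      · rw [Prod.snd_sum]
        simp only [Prod.smul_snd]
        rw [hL, map_sum]
        refine Finset.sum_congr rfl fun i _ => ?_
        rw [map_smul]
    rw [h2]
    exact Submodule.sum_mem _ fun c hc => Submodule.smul_mem _ _ (hw2 c (hv c hc))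
  · intro v i hi
    obtain ⟨c, -, hi'⟩ := Finset.mem_biUnion.1 (hsup v hi)
    exact hw1 c i hi'
  · intro s
    refine ⟨s.biUnion fun c => (w c).support, fun v hv => (hsup v).trans ?_⟩
    exact Finset.biUnion_subset_biUnion_of_subset_left _ hv

theorem Valid.free_step {S : Sys C} (hS : Full S) {A B : Set C}
    {G : Submodule ℝ (Amb S × Amb S)} (hV : Valid S A G B) (hB : #B < #C) {a : C}
    (haA : a ∉ A) (ha : Good S a) (hsA : ∀ j, ∀ i ∈ (S.dec a j).1.support, i ∈ A) :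
    ∃ (b : C) (G' : Submodule ℝ (Amb S × Amb S)), G ≤ G' ∧ Valid S (insert a A) G' (insert b B) := by
  obtain ⟨L, hL1, hL2, hL3⟩ := hV.transport
  let F : ℕ → (C →₀ ℝ) × ℝ := fun j => (L (S.dec a j).1, (S.dec a j).2)
  have hF : FD F ∨ Lim F := by
    rcases S.hdat a with h | h
    · left
      obtain ⟨s, hs⟩ := h
      obtain ⟨t, ht⟩ := hL3 s
      exact ⟨t, fun j => ht _ (hs j)⟩
    · right
      exact h
  obtain ⟨b, hbB, hdb, hsb⟩ := hS F hF B hB
  have hd1 : ∀ j, (S.dec b j).1 = L (S.dec a j).1 := fun j => by rw [hdb]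
  have hd2 : ∀ j, (S.dec a j).2 = (S.dec b j).2 := fun j => by rw [hdb]
  have hG1 : ∀ j, (io S (S.dec a j).1, io S (S.dec b j).1) ∈ G := fun j => by
    rw [hd1]; exact hL1 _ (hsA j)
  have hb : Good S b := by
    refine good_of S (by rw [hdb]; exact hsb) fun j k => ?_
    have h1 := hV.iso _ (G.sub_mem (hG1 j) (hG1 k))
    change ‖io S (S.dec a j).1 - io S (S.dec a k).1‖ =
      ‖io S (S.dec b j).1 - io S (S.dec b k).1‖ at h1
    rw [map_sub, ← h1, ← map_sub, ← hd2, ← hd2]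
    exact good_norm S ha j k
  have hsB : ∀ j, ∀ i ∈ (S.dec b j).1.support, i ∈ B := fun j i hi => by
    rw [hd1] at hi
    exact hL2 _ i hi
  have hiso : ∀ p ∈ G, ∀ μ : ℝ, ‖p.1 + μ • be S a‖ = ‖p.2 + μ • be S b‖ := by
    intro p hp μ
    refine le_antisymm (half hV ha hb hbB hsB hG1 hd2 hp μ) ?_
    exact half hV.swap hb ha haA hsA hG1 (fun j => (hd2 j).symm) (p := (p.2, p.1)) hp μ
  have hmem : ∀ p ∈ G ⊔ Submodule.span ℝ {(be S a, be S b)}, ∃ q ∈ G, ∃ μ : ℝ,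
      p = q + μ • (be S a, be S b) := by
    intro p hp
    obtain ⟨q, hq, z, hz, rfl⟩ := Submodule.mem_sup.1 hp
    obtain ⟨μ, rfl⟩ := Submodule.mem_span_singleton.1 hz
    exact ⟨q, hq, μ, rfl⟩
  have hab : (be S a, be S b) ∈ G ⊔ Submodule.span ℝ {(be S a, be S b)} :=
    Submodule.mem_sup_right (Submodule.mem_span_singleton_self _)
  refine ⟨b, G ⊔ Submodule.span ℝ {(be S a, be S b)}, le_sup_left, ?_⟩
  refine ⟨hV.hA.insert fun _ => hsA, hV.hB.insert fun _ => hsB, ?_, ?_, ?_, ?_, ?_⟩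
  · intro p hp
    obtain ⟨q, hq, μ, rfl⟩ := hmem p hp
    exact hiso q hq μ
  · rintro c (rfl | hc)
    · exact ⟨_, hab⟩
    · obtain ⟨y, hy⟩ := hV.f1 c hc
      exact ⟨y, Submodule.mem_sup_left hy⟩
  · intro p hp
    obtain ⟨q, hq, μ, rfl⟩ := hmem p hp
    obtain ⟨v, hv, hvq⟩ := hV.f2 q hq
    classical
    refine ⟨v + μ • Finsupp.single a 1, fun i hi => ?_, ?_⟩
    · rcases Finset.mem_union.1 (Finsupp.support_add hi) with h | h
      · exact Or.inr (hv i h)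
      · left
        have := Finsupp.support_single_subset (Finsupp.support_smul h)
        simpa using this
    · rw [map_add, map_smul, hvq]
      rfl
  · rintro c (rfl | hc)
    · exact ⟨_, hab⟩
    · obtain ⟨y, hy⟩ := hV.g1 c hc
      exact ⟨y, Submodule.mem_sup_left hy⟩
  · intro p hp
    obtain ⟨q, hq, μ, rfl⟩ := hmem p hp
    obtain ⟨v, hv, hvq⟩ := hV.g2 q hq
    classical
    refine ⟨v + μ • Finsupp.single b 1, fun i hi => ?_, ?_⟩
    · rcases Finset.mem_union.1 (Finsupp.support_add hi) with h | h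
      · exact Or.inr (hv i h)
      · left
        have := Finsupp.support_single_subset (Finsupp.support_smul h)
        simpa using this
    · rw [map_add, map_smul, hvq]
      rfl

theorem be_bad {S : Sys C} {c : C} (hc : ¬ Good S c) : be S c = 0 := by
  have : ‖io S (Finsupp.single c 1)‖ ≤ 0 := norm_io_le S fun φ hφ => by
    rw [ev_single, (hφ c).2 hc, abs_zero]
  exact norm_le_zero_iff.1 this

/-- adding one code to the domain -/
theorem Valid.step1 {S : Sys C} (hS : Full S) {A B : Set C}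
    {G : Submodule ℝ (Amb S × Amb S)} (hV : Valid S A G B) (hB : #B < #C) {a : C}
    (hsA : Good S a → ∀ j, ∀ i ∈ (S.dec a j).1.support, i ∈ A) :
    ∃ (b : Set C) (G' : Submodule ℝ (Amb S × Amb S)), G ≤ G' ∧ Valid S (insert a A) G' (b ∪ B) ∧
      #b ≤ 1 := by
  by_cases haA : a ∈ A
  · refine ⟨∅, G, le_rfl, ?_, by simp⟩
    rw [insert_eq_of_mem haA, empty_union]
    exact hV
  by_cases ha : Good S a
  · obtain ⟨b, G', h1, h2⟩ := hV.free_step hS hB haA ha (hsA ha)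
    exact ⟨{b}, G', h1, h2, by simp⟩
  · refine ⟨∅, G, le_rfl, ?_, by simp⟩
    rw [empty_union]
    refine ⟨hV.hA.insert hsA, hV.hB, hV.iso, ?_, ?_, hV.g1, hV.g2⟩
    · rintro c (rfl | hc)
      · exact ⟨0, by rw [be_bad ha]; exact G.zero_mem⟩
      · exact hV.f1 c hc
    · intro p hp
      obtain ⟨v, hv, hvp⟩ := hV.f2 p hp
      exact ⟨v, fun i hi => Or.inr (hv i hi), hvp⟩

/-- adding one code to both sides -/
theorem Valid.step {S : Sys C} (hS : Full S) {A B : Set C}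
    {G : Submodule ℝ (Amb S × Amb S)} (hV : Valid S A G B) (hA : #A < #C) (hB : #B < #C)
    (hinf : ℵ₀ ≤ #C) {a : C}
    (hsA : Good S a → ∀ j, ∀ i ∈ (S.dec a j).1.support, i ∈ A)
    (hsB : Good S a → ∀ j, ∀ i ∈ (S.dec a j).1.support, i ∈ B) :
    ∃ (A' B' : Set C) (G' : Submodule ℝ (Amb S × Amb S)), G ≤ G' ∧ A ⊆ A' ∧ B ⊆ B' ∧
      Valid S A' G' B' ∧ a ∈ A' ∧ a ∈ B' ∧
      (∀ κ, ℵ₀ ≤ κ → #A ≤ κ → #A' ≤ κ) ∧ (∀ κ, ℵ₀ ≤ κ → #B ≤ κ → #B' ≤ κ) := by
  obtain ⟨b, G1, h1, h2, h3⟩ := hV.step1 hS hB hsA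
  have hA1 : #(insert a A : Set C) < #C := by
    refine lt_of_le_of_lt (Cardinal.mk_insert_le) ?_
    exact Cardinal.add_lt_of_lt hinf hA (Cardinal.one_lt_aleph0.trans_le hinf)
  obtain ⟨b', G2, h4, h5, h6⟩ := h2.swap.step1 hS hA1 (a := a)
    (fun hg j i hi => Or.inr (hsB hg j i hi))
  refine ⟨b' ∪ insert a A, insert a (b ∪ B), sw G2, ?_, ?_, ?_, h5.swap, ?_, ?_, ?_, ?_⟩
  · exact h1.trans (sw_mono h4)
  · exact fun x hx => Or.inr (Or.inr hx)
  · exact fun x hx => Or.inr (Or.inr hx)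
  · exact Or.inr (Or.inl rfl)
  · exact Or.inl rfl
  · intro κ hκ hAκ
    refine (Cardinal.mk_union_le _ _).trans ?_
    refine Cardinal.add_le_of_le hκ (h6.trans (Cardinal.one_le_aleph0.trans hκ)) ?_
    refine (Cardinal.mk_insert_le).trans ?_
    exact Cardinal.add_le_of_le hκ hAκ (Cardinal.one_le_aleph0.trans hκ)
  · intro κ hκ hBκ
    refine (Cardinal.mk_insert_le).trans ?_
    refine Cardinal.add_le_of_le hκ ?_ (Cardinal.one_le_aleph0.trans hκ)
    refine (Cardinal.mk_union_le _ _).trans ?_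
    exact Cardinal.add_le_of_le hκ (h3.trans (Cardinal.one_le_aleph0.trans hκ)) hBκ

end Pool.Agent.H96hom
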