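import Pool.Agent.H96hom.Space

set_option autoImplicit false

namespace Pool.Agent.H96hom

universe u v

open Set

open scoped Cardinal

/-- asymptotic freeness of a sequence over a vector -/
def LL {E : Type u} [NormedAddCommGroup E] (e : ℕ → E) (x : E) : Prop :=
  ∀ ε > 0, ∃ N : ℕ, ∀ n ≥ N, ‖x‖ + 1 - ε ≤ ‖x + e n‖

section General

variable {E : Type u} [NormedAddCommGroup E] [NormedSpace ℝ E] {e : ℕ → E}

omit [NormedSpace ℝ E] in
theorem LL_of_close {x : E} (h : ∀ ε > 0, ∃ y, LL e y ∧ ‖x - y‖ ≤ ε) : LL e x := by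
  intro ε hε
  obtain ⟨y, hy, hxy⟩ := h (ε / 4) (by positivity)
  obtain ⟨N, hN⟩ := hy (ε / 4) (by positivity)
  refine ⟨N, fun n hn => ?_⟩
  have h1 := hN n hn
  have h2 : ‖x‖ ≤ ‖y‖ + ε / 4 := by
    have := norm_le_norm_add_norm_sub' x y
    linarith
  have h3 : ‖y + e n‖ ≤ ‖x + e n‖ + ε / 4 := by
    have := norm_le_norm_add_norm_sub' (y + e n) (x + e n)
    have h4 : ‖y + e n - (x + e n)‖ = ‖x - y‖ := by
      rw [← norm_neg]
      congr 1
      abel
    rw [h4] at this
    linarith
  linarith

theorem LL_smul {Y : Submodule ℝ E} (h : ∀ y ∈ Y, LL e y) {y : E} (hy : y ∈ Y) (μ : ℝ) {ε : ℝ}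
    (hε : 0 < ε) : ∃ N : ℕ, ∀ n ≥ N, ‖y‖ + |μ| - ε ≤ ‖y + μ • e n‖ := by
  by_cases hμ : μ = 0
  · refine ⟨0, fun n _ => ?_⟩
    subst hμ
    simp only [abs_zero, add_zero, zero_smul]
    linarith
  · have hpos : 0 < |μ| := abs_pos.2 hμ
    obtain ⟨N, hN⟩ := h (μ⁻¹ • y) (Y.smul_mem _ hy) (ε / |μ|) (by positivity)
    refine ⟨N, fun n hn => ?_⟩
    have h1 := hN n hn
    have h2 : y + μ • e n = μ • (μ⁻¹ • y + e n) := by
      rw [smul_add, smul_smul, mul_inv_cancel₀ hμ, one_smul]
    rw [h2, norm_smul, Real.norm_eq_abs]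
    rw [norm_smul, norm_inv, Real.norm_eq_abs] at h1
    have h3 := mul_le_mul_of_nonneg_left h1 hpos.le
    have h4 : |μ| * (|μ|⁻¹ * ‖y‖ + 1 - ε / |μ|) = ‖y‖ + |μ| - ε := by
      field_simp
    rw [h4] at h3
    exact h3

theorem uniform (he : ∀ n, ‖e n‖ ≤ 1) (Y : Submodule ℝ E) [FiniteDimensional ℝ Y]
    (h : ∀ y ∈ Y, LL e y) {δ : ℝ} (hδ : 0 < δ) :
    ∃ N : ℕ, ∀ n ≥ N, ∀ (y : Y) (μ : ℝ), (1 - δ) * (‖(y : E)‖ + |μ|) ≤ ‖(y : E) + μ • e n‖ := by
  have hprop : ProperSpace Y := FiniteDimensional.proper ℝ Y
  let K0 : Set (Y × ℝ) := {p | ‖p.1‖ + |p.2| = 1}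
  have hK0 : IsCompact K0 := by
    refine Metric.isCompact_of_isClosed_isBounded ?_ ?_
    · exact isClosed_eq (by fun_prop) continuous_const
    · refine (Metric.isBounded_closedBall (x := (0 : Y × ℝ)) (r := 1)).subset ?_
      intro p hp
      have hp' : ‖p.1‖ + |p.2| = 1 := hp
      rw [mem_closedBall_zero_iff, Prod.norm_def, Real.norm_eq_abs]
      exact max_le (by linarith [abs_nonneg p.2]) (by linarith [norm_nonneg p.1])
  obtain ⟨A, hA, hfin, hcov⟩ := hK0.finite_cover_balls (show 0 < δ / 8 by positivity)
  have hN : ∀ p : Y × ℝ, ∃ N : ℕ, ∀ n ≥ N, ‖(p.1 : E)‖ + |p.2| - δ / 4 ≤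
      ‖(p.1 : E) + p.2 • e n‖ := fun p => LL_smul h p.1.2 p.2 (by positivity)
  choose N hN using hN
  refine ⟨hfin.toFinset.sup N, fun n hn y μ => ?_⟩
  by_cases h0 : ‖(y : E)‖ + |μ| = 0
  · rw [h0, mul_zero]; exact norm_nonneg _
  have hpos : 0 < ‖(y : E)‖ + |μ| :=
    lt_of_le_of_ne (by positivity) (Ne.symm h0)
  set r := ‖(y : E)‖ + |μ| with hr
  have hmem : (r⁻¹ • y, r⁻¹ * μ) ∈ K0 := by
    change ‖r⁻¹ • y‖ + |r⁻¹ * μ| = 1
    rw [norm_smul, abs_mul, Real.norm_eq_abs, abs_of_pos (inv_pos.2 hpos), ← mul_add]
    exact inv_mul_cancel₀ h0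
  obtain ⟨p, hp, hpd⟩ := mem_iUnion₂.1 (hcov hmem)
  have h1 := hN p n ((Finset.le_sup (hfin.mem_toFinset.2 hp)).trans hn)
  have hp1 : ‖(p.1 : E)‖ + |p.2| = 1 := hA hp
  rw [hp1] at h1
  have hd := (Metric.mem_ball.1 hpd)
  rw [Prod.dist_eq, max_lt_iff] at hd
  have h2 : ‖(r⁻¹ • (y : E)) + (r⁻¹ * μ) • e n - ((p.1 : E) + p.2 • e n)‖ ≤ δ / 4 := by
    have h3 : (r⁻¹ • (y : E)) + (r⁻¹ * μ) • e n - ((p.1 : E) + p.2 • e n) =
        (r⁻¹ • (y : E) - p.1) + (r⁻¹ * μ - p.2) • e n := by
      rw [sub_smul]; abel
    rw [h3]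
    refine (norm_add_le _ _).trans ?_
    have h4 : ‖r⁻¹ • (y : E) - p.1‖ < δ / 8 := by
      have := hd.1
      rw [dist_eq_norm] at this
      exact this
    have h5 : ‖(r⁻¹ * μ - p.2) • e n‖ ≤ δ / 8 := by
      rw [norm_smul, Real.norm_eq_abs]
      have := hd.2
      rw [Real.dist_eq] at this
      calc |r⁻¹ * μ - p.2| * ‖e n‖ ≤ |r⁻¹ * μ - p.2| * 1 :=
            mul_le_mul_of_nonneg_left (he n) (abs_nonneg _)
        _ ≤ δ / 8 := by rw [mul_one]; exact this.le
    linarith
  have h6 : 1 - δ ≤ ‖(r⁻¹ • (y : E)) + (r⁻¹ * μ) • e n‖ := by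
    have := norm_le_norm_add_norm_sub ((r⁻¹ • (y : E)) + (r⁻¹ * μ) • e n) ((p.1 : E) + p.2 • e n)
    linarith
  have h7 : (y : E) + μ • e n = r • ((r⁻¹ • (y : E)) + (r⁻¹ * μ) • e n) := by
    rw [smul_add, smul_smul, smul_smul, ← mul_assoc, mul_inv_cancel₀ h0, one_smul, one_mul]
  rw [h7, norm_smul, Real.norm_eq_abs, abs_of_pos hpos, mul_comm]
  exact mul_le_mul_of_nonneg_left h6 hpos.le

end General

variable {C : Type u} [LinearOrder C] [WellFoundedLT C]

/-- the sequence of free unit vectors -/
noncomputable def ee (S : Sys C) (s : ℕ → C) (n : ℕ) : Amb S := io S (Finsupp.single (s n) 1)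

/-- codes of free unit vectors -/
def IsUnit1 (S : Sys C) (c : C) : Prop := ∀ j, S.dec c j = (0, 1)

theorem IsUnit1.good {S : Sys C} {c : C} (h : IsUnit1 S c) : Good S c := by
  refine good_of S (fun j i hi => ?_) fun j k => ?_
  · rw [h j] at hi
    simp at hi
  · rw [h j, h k]
    simp

theorem IsUnit1.norm_le {S : Sys C} {c : C} (h : IsUnit1 S c) :
    ‖io S (Finsupp.single c 1)‖ ≤ 1 := by
  have := point_le S h.good 0
  rwa [h 0, zero_add] at this

theorem IsUnit1.free {S : Sys C} {c : C} (h : IsUnit1 S c) (v : C →₀ ℝ)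
    (hv : ∀ i ∈ v.support, i < c) : ‖io S v‖ + 1 ≤ ‖io S v + io S (Finsupp.single c 1)‖ := by
  obtain ⟨ψ₀, hψ₀, hn⟩ := exists_norm_io S v
  obtain ⟨τ, hτ1, hτ2⟩ : ∃ τ : ℝ, |τ| ≤ 1 ∧ |ev ψ₀ v + τ| = |ev ψ₀ v| + 1 := by
    by_cases h0 : 0 ≤ ev ψ₀ v
    · exact ⟨1, by simp, by rw [abs_of_nonneg (by linarith), abs_of_nonneg h0]⟩
    · refine ⟨-1, by simp, ?_⟩
      rw [abs_of_neg (by linarith), abs_of_neg (by linarith)]
      ring
  obtain ⟨ψ, hψ, h1, h2⟩ := point_ge S (HC_Iio S c) (fun h : c < c => lt_irrefl _ h)
    (fun j i hi => h.good.supp j hi) (ev ψ₀) (fun w => le_norm_io S w hψ₀) τ h.good (by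
      intro j
      rw [h j, map_zero, zero_add]
      exact hτ1)
  have h3 := le_norm_io S (v + Finsupp.single c 1) hψ
  rw [map_add, ev_single, h1 v (fun i hi => hv i hi), h2, hτ2, hn, map_add] at h3
  exact h3

theorem LL_all (S : Sys C) (s : ℕ → C) (hs : Function.Injective s)
    (h1 : ∀ n, IsUnit1 S (s n)) (v : C →₀ ℝ) : LL (ee S s) (io S v) := by
  classical
  have he : ∀ n, ‖ee S s n‖ ≤ 1 := fun n => (h1 n).norm_le
  have key : ∀ c : C, ∀ v : C →₀ ℝ, (∀ i ∈ v.support, i ≤ c) → LL (ee S s) (io S v) := by
    intro c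
    induction c using WellFoundedLT.induction with
    | _ c ih =>
      have hQ : ∀ v : C →₀ ℝ, (∀ i ∈ v.support, i < c) → LL (ee S s) (io S v) := by
        intro v hv
        by_cases h0 : v = 0
        · subst h0
          intro ε hε
          refine ⟨0, fun n _ => ?_⟩
          have := (h1 n).free 0 (by simp)
          change ‖io S 0‖ + 1 - ε ≤ ‖io S 0 + io S (Finsupp.single (s n) 1)‖
          linarith
        · have hne : v.support.Nonempty := Finsupp.support_nonempty_iff.2 h0
          exact ih (v.support.max' hne) (hv _ (Finset.max'_mem _ hne)) v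
            fun i hi => Finset.le_max' _ i hi
      intro v hv
      set v' := v.erase c with hv'
      have hv's : ∀ i ∈ v'.support, i < c := by
        intro i hi
        rw [hv', Finsupp.support_erase, Finset.mem_erase] at hi
        exact lt_of_le_of_ne (hv i hi.2) hi.1
      have hvv : v = v' + v c • Finsupp.single c 1 := by
        rw [hv', Finsupp.smul_single, smul_eq_mul, mul_one]
        exact (Finsupp.erase_add_single c v).symm
      by_cases hg : Good S c
      · rcases S.hdat c with hFD | hLim
        · -- finite-dimensional data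
          obtain ⟨s0, hs0⟩ := hFD
          let t : Finset C := v'.support ∪ s0.filter (· < c)
          have ht : ∀ i ∈ t, i < c := by
            intro i hi
            rcases Finset.mem_union.1 hi with h | h
            · exact hv's i h
            · exact (Finset.mem_filter.1 h).2
          let Y : Submodule ℝ (Amb S) := Submodule.span ℝ
            ((fun i => io S (Finsupp.single i 1)) '' (t : Set C))
          have hYfd : FiniteDimensional ℝ Y :=
            FiniteDimensional.span_of_finite ℝ (t.finite_toSet.image _)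
          have hYmem : ∀ w : C →₀ ℝ, w.support ⊆ t → io S w ∈ Y := by
            intro w hw
            have : io S w = ∑ i ∈ w.support, w i • io S (Finsupp.single i 1) := by
              conv_lhs => rw [← Finsupp.sum_single w]
              rw [Finsupp.sum, map_sum]
              refine Finset.sum_congr rfl fun i _ => ?_
              rw [← map_smul]
              congr 1
              simp
            rw [this]
            exact Submodule.sum_mem _ fun i hi => Submodule.smul_mem _ _
              (Submodule.subset_span ⟨i, hw hi, rfl⟩)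
          have hYLL : ∀ y ∈ Y, LL (ee S s) y := by
            intro y hy
            have hle : Y ≤ (Finsupp.supported ℝ ℝ (Iio c)).map (io S) := by
              refine Submodule.span_le.2 ?_
              rintro _ ⟨i, hi, rfl⟩
              exact ⟨_, Finsupp.single_mem_supported ℝ 1 (ht i hi), rfl⟩
            obtain ⟨w, hw, rfl⟩ := hle hy
            exact hQ w fun i hi => hw hi
          intro ε hε
          set M := ‖io S v‖ with hM
          have hM0 : 0 ≤ M := norm_nonneg _
          set δ := min (1 / 2) (ε / (M + 1)) with hδ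
          have hδ0 : 0 < δ := lt_min (by norm_num) (by positivity)
          have hδ1 : δ ≤ 1 / 2 := min_le_left _ _
          have hδ2 : δ * (M + 1) ≤ ε := by
            have : δ ≤ ε / (M + 1) := min_le_right _ _
            rwa [le_div_iff₀ (by positivity)] at this
          obtain ⟨N, hN⟩ := uniform he Y hYLL hδ0
          obtain ⟨N', hN'⟩ : ∃ N', ∀ n ≥ N', s n ≠ c := by
            by_cases hex : ∃ n, s n = c
            · obtain ⟨n0, hn0⟩ := hex
              refine ⟨n0 + 1, fun n hn h => ?_⟩
              have := hs (h.trans hn0.symm)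
              omega
            · exact ⟨0, fun n _ h => hex ⟨n, h⟩⟩
          refine ⟨max N N', fun n hn => ?_⟩
          have hsn := hN' n ((le_max_right _ _).trans hn)
          rcases lt_or_gt_of_ne hsn with hlt | hgt
          · -- the free unit vector is below `c`
            obtain ⟨ψ₀, hψ₀, hnorm⟩ := exists_norm_io S v
            obtain ⟨τ, hτ1, hτ2⟩ : ∃ τ : ℝ, |τ| ≤ 1 ∧ |ev ψ₀ v + τ| = |ev ψ₀ v| + 1 := by
              by_cases h0 : 0 ≤ ev ψ₀ v
              · exact ⟨1, by simp, by rw [abs_of_nonneg (by linarith), abs_of_nonneg h0]⟩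
              · refine ⟨-1, by simp, ?_⟩
                rw [abs_of_neg (by linarith), abs_of_neg (by linarith)]
                ring
            let L : (Y × ℝ) →ₗ[ℝ] Amb S := Y.subtype.coprod
              (LinearMap.toSpanSingleton ℝ (Amb S) (ee S s n))
            let ξ : (Y × ℝ) →ₗ[ℝ] ℝ := (1 - δ) •
              (((at' S ⟨ψ₀, hψ₀⟩).toLinearMap.comp Y.subtype).coprod
                (LinearMap.toSpanSingleton ℝ ℝ τ))
            have hL : ∀ (y : Y) (μ : ℝ), L (y, μ) = (y : Amb S) + μ • ee S s n := fun y μ => rfl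
            have hξ : ∀ (y : Y) (μ : ℝ), ξ (y, μ) =
                (1 - δ) * (at' S ⟨ψ₀, hψ₀⟩ y + μ * τ) := fun y μ => rfl
            obtain ⟨Gx, hG1, hG2⟩ := dominated L ξ (by
              rintro ⟨y, μ⟩
              rw [hL, hξ, abs_mul, abs_of_nonneg (by linarith)]
              refine le_trans ?_ (hN n ((le_max_left _ _).trans hn) y μ)
              refine mul_le_mul_of_nonneg_left ?_ (by linarith)
              refine (abs_add_le _ _).trans (add_le_add (at'_norm S _ _) ?_)
              rw [abs_mul]
              exact mul_le_of_le_one_right (abs_nonneg _) hτ1)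
            have hGw : ∀ w : C →₀ ℝ, w.support ⊆ t → Gx (io S w) = (1 - δ) * ev ψ₀ w := by
              intro w hw
              have h2 := hG2 (⟨io S w, hYmem w hw⟩, 0)
              rw [hL, hξ] at h2
              simp only [zero_smul, add_zero, zero_mul] at h2
              rw [h2, at'_io]
            have hGe : Gx (ee S s n) = (1 - δ) * τ := by
              have h2 := hG2 (0, 1)
              rw [hL, hξ] at h2
              simpa using h2
            have hnn : ∀ j, 0 ≤ (S.dec c j).2 := fun j =>
              (norm_nonneg _).trans (point_le S hg j)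
            have hsup : ∀ j, (S.dec c j).1.support ⊆ t := by
              intro j i hi
              exact Finset.mem_union_right _ (Finset.mem_filter.2 ⟨hs0 j hi, hg.supp j hi⟩)
            obtain ⟨ψ, hψ, h3, h4⟩ := point_ge S (HC_Iio S c) (fun h : c < c => lt_irrefl _ h)
              (fun j i hi => hg.supp j hi) (Gx.toLinearMap.comp (io S)) (fun w => hG1 _)
              ((1 - δ) * ψ₀ c) hg (by
                intro j
                change |Gx (io S (S.dec c j).1) + (1 - δ) * ψ₀ c| ≤ _
                rw [hGw _ (hsup j), ← mul_add, abs_mul, abs_of_nonneg (by linarith)]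
                have h5 := (hψ₀ c).1 hg j
                have h6 := hnn j
                calc (1 - δ) * |ev ψ₀ (S.dec c j).1 + ψ₀ c| ≤ 1 * (S.dec c j).2 :=
                      mul_le_mul (by linarith) h5 (abs_nonneg _) zero_le_one
                  _ = _ := one_mul _)
            have h7 := le_norm_io S (v + Finsupp.single (s n) 1) hψ
            have h8 : ev ψ v' = (1 - δ) * ev ψ₀ v' := by
              rw [h3 v' (fun i hi => hv's i hi)]
              exact hGw v' Finset.subset_union_left
            have h9 : ψ (s n) = (1 - δ) * τ := by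
              rw [← ev_single ψ (s n), h3 _ (by
                intro i hi
                have : i = s n := by
                  have := Finsupp.support_single_subset hi
                  simpa using this
                rw [this]
                exact hlt)]
              exact hGe
            have h10 : ev ψ (v + Finsupp.single (s n) 1) = (1 - δ) * (ev ψ₀ v + τ) := by
              rw [map_add, ev_single, h9]
              have h11 : ev ψ v = (1 - δ) * ev ψ₀ v := by
                rw [hvv, map_add, map_add, map_smul, map_smul, ev_single, ev_single, h4, h8,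
                  smul_eq_mul, smul_eq_mul]
                ring
              rw [h11]
              ring
            rw [h10, abs_mul, abs_of_nonneg (by linarith), hτ2, hnorm, map_add] at h7
            change M + 1 - ε ≤ ‖io S v + io S (Finsupp.single (s n) 1)‖
            refine le_trans ?_ h7
            have : (1 - δ) * (M + 1) = M + 1 - δ * (M + 1) := by ring
            linarith
          · have h2 := (h1 n).free v (fun i hi => lt_of_le_of_lt (hv i hi) hgt)
            change M + 1 - ε ≤ ‖io S v + io S (Finsupp.single (s n) 1)‖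
            linarith
        · -- limit data
          apply LL_of_close
          intro ε hε
          obtain ⟨j, hj⟩ := hLim (ε / (|v c| + 1)) (by positivity)
          refine ⟨io S (v' - v c • (S.dec c j).1), hQ _ ?_, ?_⟩
          · intro i hi
            have := Finsupp.support_sub hi
            rcases Finset.mem_union.1 this with h | h
            · exact hv's i h
            · exact hg.supp j (Finsupp.support_smul h)
          · have h2 : io S v - io S (v' - v c • (S.dec c j).1) =
                v c • io S ((S.dec c j).1 + Finsupp.single c 1) := by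
              conv_lhs => rw [hvv]
              rw [← map_sub, ← map_smul]
              congr 1
              rw [smul_add]
              have h3 : (v' + v c • Finsupp.single c (1:ℝ)) c = v c := by rw [← hvv]
              rw [h3]
              abel
            rw [h2, norm_smul, Real.norm_eq_abs]
            have h3 := (point_le S hg j).trans hj
            calc |v c| * ‖io S ((S.dec c j).1 + Finsupp.single c 1)‖
                ≤ |v c| * (ε / (|v c| + 1)) := mul_le_mul_of_nonneg_left h3 (abs_nonneg _)
              _ ≤ ε := by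
                rw [mul_div_assoc', div_le_iff₀ (by positivity)]
                nlinarith [abs_nonneg (v c)]
      · -- a code that is not good
        have h2 : io S (Finsupp.single c 1) = 0 := by
          have : ‖io S (Finsupp.single c 1)‖ ≤ 0 := norm_io_le S fun φ hφ => by
            rw [ev_single, (hφ c).2 hg, abs_zero]
          exact norm_le_zero_iff.1 this
        have h3 : io S v = io S v' := by
          conv_lhs => rw [hvv]
          rw [map_add, map_smul, h2, smul_zero, add_zero]
        rw [h3]
        exact hQ v' hv's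
  by_cases h0 : v = 0
  · subst h0
    exact key (s 0) 0 (by simp)
  · have hne : v.support.Nonempty := Finsupp.support_nonempty_iff.2 h0
    exact key (v.support.max' hne) v fun i hi => Finset.le_max' _ i hi

end Pool.Agent.H96hom
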