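import Pool.Agent.H96hom.Sys

set_option autoImplicit false

namespace Pool.Agent.H96hom

universe u v

open Set

open scoped Cardinal

variable {C : Type u} [LinearOrder C] [WellFoundedLT C]

/-- every extension datum has a code above its support, outside any given small set -/
def Full (S : Sys C) : Prop :=
  ∀ F : ℕ → (C →₀ ℝ) × ℝ, (FD F ∨ Lim F) → ∀ A : Set C, #A < #C →
    ∃ c, c ∉ A ∧ S.dec c = F ∧ ∀ j, ∀ i ∈ (F j).1.support, i < c

/-- a right inverse of the evaluation map -/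
theorem exists_section (S : Sys C) : ∃ r : XX S →ₗ[ℝ] (C →₀ ℝ), ∀ x, io S (r x) = x := by
  obtain ⟨r, hr⟩ := (io S).rangeRestrict.exists_rightInverse_of_surjective
    (LinearMap.range_rangeRestrict _)
  exact ⟨r, fun x => congrArg Subtype.val (LinearMap.congr_fun hr x)⟩

omit [LinearOrder C] [WellFoundedLT C] in
theorem fd_of_linear {P : Type v} [AddCommGroup P] [Module ℝ P] [FiniteDimensional ℝ P]
    (L : P →ₗ[ℝ] (C →₀ ℝ)) : ∃ s : Finset C, ∀ x, (L x).support ⊆ s := by
  classical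
  let b := Module.finBasis ℝ P
  refine ⟨Finset.univ.biUnion fun i => (L (b i)).support, fun x => ?_⟩
  rw [← b.sum_repr x, map_sum]
  intro c hc
  by_contra h
  apply Finsupp.mem_support_iff.1 hc
  rw [Finsupp.finsetSum_apply]
  apply Finset.sum_eq_zero
  intro i _
  rw [map_smul, Finsupp.smul_apply]
  have : L (b i) c = 0 := by
    by_contra h'
    exact h (Finset.mem_biUnion.2 ⟨i, Finset.mem_univ _, Finsupp.mem_support_iff.2 h'⟩)
  rw [this, smul_zero]

theorem one_dim [Nonempty C] (S : Sys C) (hS : Full S) {T : Type v} [NormedAddCommGroup T]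
    [NormedSpace ℝ T] (P : Submodule ℝ T) [FiniteDimensional ℝ P]
    (w : P →ₗᵢ[ℝ] XX S) (t : T) :
    ∃ e : XX S, ∀ s : P, ‖w s + e‖ = ‖(s : T) + t‖ := by
  have hprop : ProperSpace P := FiniteDimensional.proper ℝ P
  let d : ℕ → P := TopologicalSpace.denseSeq P
  have hd : DenseRange d := TopologicalSpace.denseRange_denseSeq P
  obtain ⟨r, hr⟩ := exists_section S
  let v : ℕ → (C →₀ ℝ) := fun j => r (w (d j))
  have hv : ∀ j, io S (v j) = (w (d j) : Amb S) := fun j => hr _
  let F : ℕ → (C →₀ ℝ) × ℝ := fun j => (v j, ‖((d j : P) : T) + t‖)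
  have hFD : FD F := by
    obtain ⟨s, hs⟩ := fd_of_linear (r.comp w.toLinearMap)
    exact ⟨s, fun j => hs (d j)⟩
  have hcard : #(∅ : Set C) < #C := by
    rw [Cardinal.mk_emptyCollection]
    exact pos_of_ne_zero (Cardinal.mk_ne_zero C)
  obtain ⟨c, -, hF, hs⟩ := hS F (Or.inl hFD) ∅ hcard
  have hF1 : ∀ j, (S.dec c j).1 = v j := fun j => by rw [hF]
  have hF2 : ∀ j, (S.dec c j).2 = ‖((d j : P) : T) + t‖ := fun j => by rw [hF]
  have hg : Good S c := by
    refine good_of S (by rw [hF]; exact hs) fun j k => ?_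
    rw [hF1, hF1, hF2, hF2, map_sub, hv, hv]
    have h1 : ‖(w (d j) : Amb S) - w (d k)‖ = ‖((d j : P) : T) - d k‖ := by
      have : ‖w (d j - d k)‖ = ‖d j - d k‖ := w.norm_map _
      rw [map_sub] at this
      exact this
    rw [h1]
    calc ‖((d j : P) : T) - d k‖ = ‖(((d j : P) : T) + t) - (d k + t)‖ := by congr 1; abel
      _ ≤ _ := norm_sub_le _ _
  refine ⟨⟨io S (Finsupp.single c 1), LinearMap.mem_range_self _ _⟩, ?_⟩
  have key : ∀ j, ‖w (d j) + ⟨io S (Finsupp.single c 1), LinearMap.mem_range_self _ _⟩‖ =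
      ‖((d j : P) : T) + t‖ := by
    intro j
    have h0 : ‖w (d j) + ⟨io S (Finsupp.single c 1), LinearMap.mem_range_self _ _⟩‖ =
        ‖io S (v j + Finsupp.single c 1)‖ := by
      rw [map_add, hv]; rfl
    rw [h0]
    refine le_antisymm (by rw [← hF1, ← hF2]; exact point_le S hg j) ?_
    obtain ⟨g, hg1, hg2⟩ := exists_dual_vector'' ℝ (((d j : P) : T) + t)
    have hgle : ∀ x, |g x| ≤ ‖x‖ := fun x => (g.le_opNorm _).trans
      ((mul_le_mul_of_nonneg_right hg1 (norm_nonneg _)).trans (by rw [one_mul]))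
    obtain ⟨Gx, hG1, hG2⟩ := dominated ((XX S).subtype.comp w.toLinearMap)
      (g.toLinearMap.comp P.subtype) (by
        intro x
        refine (hgle _).trans (le_of_eq ?_)
        exact (w.norm_map x).symm)
    have hGW : ∀ p : P, Gx (w p : Amb S) = g p := hG2
    obtain ⟨ψ, hψ, h5, h6⟩ := point_ge S (HC_Iio S c) (fun h : c < c => lt_irrefl _ h)
      (fun j i hi => hg.supp j hi)
      (Gx.toLinearMap.comp (io S)) (fun x => hG1 _) (g t) hg (by
        intro k
        rw [hF1, hF2]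
        change |Gx (io S (v k)) + g t| ≤ _
        rw [hv, hGW, ← map_add]
        exact hgle _)
    have h7 := le_norm_io S (v j + Finsupp.single c 1) hψ
    rw [map_add, ev_single, h6, h5 (v j) (fun i hi => hg.supp j (by rw [hF1]; exact hi))] at h7
    change |Gx (io S (v j)) + g t| ≤ _ at h7
    rw [hv, hGW, ← map_add, hg2] at h7
    refine le_trans ?_ h7
    exact le_abs_self _
  intro s
  have hc1 : Continuous fun s : P =>
      ‖w s + ⟨io S (Finsupp.single c 1), LinearMap.mem_range_self _ _⟩‖ :=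
    (w.continuous.add continuous_const).norm
  have hc2 : Continuous fun s : P => ‖(s : T) + t‖ :=
    (continuous_subtype_val.add continuous_const).norm
  exact congrFun (hd.equalizer hc1 hc2 (funext key)) s

theorem one_dim' [Nonempty C] (S : Sys C) (hS : Full S) {T : Type v} [NormedAddCommGroup T]
    [NormedSpace ℝ T] (P : Submodule ℝ T) [FiniteDimensional ℝ P]
    (w : P →ₗᵢ[ℝ] XX S) (t : T) :
    ∃ e : XX S, ∀ (s : P) (a : ℝ), ‖w s + a • e‖ = ‖(s : T) + a • t‖ := by
  obtain ⟨e, he⟩ := one_dim S hS P w t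
  refine ⟨e, fun s a => ?_⟩
  by_cases ha : a = 0
  · subst ha
    simp
  · have h1 : w s + a • e = a • (w (a⁻¹ • s) + e) := by
      rw [smul_add, map_smul, smul_smul, mul_inv_cancel₀ ha, one_smul]
    have h2 : (s : T) + a • t = a • (((a⁻¹ • s : P) : T) + t) := by
      rw [smul_add, Submodule.coe_smul, smul_smul, mul_inv_cancel₀ ha, one_smul]
    rw [h1, h2, norm_smul, norm_smul, he]

theorem univ_disp [Nonempty C] (S : Sys C) (hS : Full S) {T : Type v} [NormedAddCommGroup T]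
    [NormedSpace ℝ T] [FiniteDimensional ℝ T] (P : Submodule ℝ T)
    (f : P →ₗᵢ[ℝ] XX S) : ∃ g : T →ₗᵢ[ℝ] XX S, ∀ s : P, g s = f s := by
  let A : Set (T →ₗ.[ℝ] XX S) := {p | ∀ x : p.domain, ‖p x‖ = ‖(x : T)‖}
  have hAc : ∀ c, c ⊆ A → IsChain (· ≤ ·) c → ∀ y ∈ c, ∃ ub ∈ A, ∀ z ∈ c, z ≤ ub := by
    intro c hcs c_chain y hy
    have cne : c.Nonempty := ⟨y, hy⟩
    have hcd : DirectedOn (· ≤ ·) c := c_chain.directedOn
    refine ⟨LinearPMap.sSup c hcd, ?_, fun _ ↦ LinearPMap.le_sSup hcd⟩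
    rintro ⟨x, hx⟩
    rcases LinearPMap.mem_domain_sSup_iff cne hcd |>.mp hx with ⟨f, hfc, hfx⟩
    have : f ≤ LinearPMap.sSup c hcd := LinearPMap.le_sSup _ hfc
    have h1 := hcs hfc ⟨x, hfx⟩
    have h2 : f ⟨x, hfx⟩ = (LinearPMap.sSup c hcd) ⟨x, hx⟩ := this.2 rfl
    rw [← h2]
    exact h1
  let p0 : T →ₗ.[ℝ] XX S := ⟨P, f.toLinearMap⟩
  have hp0 : p0 ∈ A := fun x => f.norm_map x
  obtain ⟨q, hpq, hqA⟩ := zorn_le_nonempty₀ A hAc p0 hp0
  have htop : q.domain = ⊤ := by
    rw [Submodule.eq_top_iff']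
    intro t
    by_contra ht
    let w : q.domain →ₗᵢ[ℝ] XX S := ⟨q.toFun, fun x => hqA.1 x⟩
    obtain ⟨e, he⟩ := one_dim' S hS q.domain w t
    have h1 : q.supSpanSingleton t e ht ∈ A := by
      rintro ⟨x, hx⟩
      obtain ⟨s, hs, a, rfl⟩ : ∃ s ∈ q.domain, ∃ a : ℝ, s + a • t = x := by
        rw [LinearPMap.domain_supSpanSingleton, Submodule.mem_sup] at hx
        obtain ⟨s, hs, z, hz, rfl⟩ := hx
        obtain ⟨a, rfl⟩ := Submodule.mem_span_singleton.1 hz
        exact ⟨s, hs, a, rfl⟩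
      rw [LinearPMap.supSpanSingleton_apply_mk q t e ht s hs a]
      exact he ⟨s, hs⟩ a
    have h2 : q ≤ q.supSpanSingleton t e ht := LinearPMap.left_le_sup _ _ _
    have h3 := hqA.2 h1 h2
    apply ht
    apply h3.1
    rw [LinearPMap.domain_supSpanSingleton]
    exact Submodule.mem_sup_right (Submodule.mem_span_singleton_self t)
  refine ⟨⟨q.toFun.comp (LinearEquiv.ofTop q.domain htop).symm.toLinearMap, fun x => ?_⟩,
    fun s => ?_⟩
  · exact hqA.1 ⟨x, _⟩
  · exact (hpq.2 (x := s) (y := ⟨s, by rw [htop]; trivial⟩) rfl).symm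

theorem XX_closed [Nonempty C] (S : Sys C) (hS : Full S) :
    IsClosed (XX S : Set (Amb S)) := by
  rw [← closure_subset_iff_isClosed]
  intro x hx
  have h1 : ∀ k : ℕ, ∃ v, ‖io S v - x‖ < 1 / ((k : ℝ) + 1) := by
    intro k
    obtain ⟨y, ⟨v, rfl⟩, h⟩ := Metric.mem_closure_iff.1 hx (1 / ((k : ℝ) + 1)) (by positivity)
    exact ⟨v, by rw [dist_comm, dist_eq_norm] at h; exact h⟩
  choose v hv using h1
  let F : ℕ → (C →₀ ℝ) × ℝ := fun j => (-v j, 1 / ((j : ℝ) + 1))
  have hlim : Lim F := by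
    intro ε hε
    obtain ⟨n, hn⟩ := exists_nat_one_div_lt hε
    exact ⟨n, hn.le⟩
  have hcard : #(∅ : Set C) < #C := by
    rw [Cardinal.mk_emptyCollection]
    exact pos_of_ne_zero (Cardinal.mk_ne_zero C)
  obtain ⟨c, -, hF, hs⟩ := hS F (Or.inr hlim) ∅ hcard
  have hg : Good S c := by
    refine good_of S (by rw [hF]; exact hs) fun j k => ?_
    rw [hF]
    calc ‖io S (-v j - -v k)‖ = ‖(io S (v k) - x) - (io S (v j) - x)‖ := by
          congr 1
          rw [map_sub, map_neg, map_neg]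
          abel
      _ ≤ _ := (norm_sub_le _ _).trans (by
          have h1 := (hv k).le
          have h2 := (hv j).le
          simp only [F]
          linarith)
  have h2 : ∀ j : ℕ, ‖io S (Finsupp.single c 1) - x‖ ≤ 2 * (1 / ((j : ℝ) + 1)) := by
    intro j
    have h3 := point_le S hg j
    rw [hF] at h3
    simp only [F] at h3
    calc ‖io S (Finsupp.single c 1) - x‖ =
        ‖io S (-v j + Finsupp.single c 1) + (io S (v j) - x)‖ := by
          congr 1
          rw [map_add, map_neg]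
          abel
      _ ≤ _ := (norm_add_le _ _).trans (by
          have h2 := (hv j).le
          linarith)
  have h3 : Filter.Tendsto (fun k : ℕ => 2 * (1 / ((k : ℝ) + 1))) Filter.atTop (nhds (2 * 0)) :=
    tendsto_one_div_add_atTop_nhds_zero_nat.const_mul 2
  have h4 : ‖io S (Finsupp.single c 1) - x‖ ≤ 2 * 0 := ge_of_tendsto' h3 h2
  have h5 : io S (Finsupp.single c 1) = x := by
    rw [mul_zero] at h4
    exact sub_eq_zero.1 (norm_le_zero_iff.1 h4)
  exact ⟨_, h5⟩

end Pool.Agent.H96hom
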