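import Mathlib

set_option autoImplicit false

namespace Pool.Agent.H96hom

universe u v

open Set

variable {C : Type u}

/-- finite-dimensional extension data -/
def FD (F : ℕ → (C →₀ ℝ) × ℝ) : Prop := ∃ s : Finset C, ∀ j, (F j).1.support ⊆ s

/-- limit data -/
def Lim (F : ℕ → (C →₀ ℝ) × ℝ) : Prop := ∀ ε > 0, ∃ j, (F j).2 ≤ ε

/-- A coding of one-point extension data. -/
structure Sys (C : Type u) where
  dec : C → ℕ → (C →₀ ℝ) × ℝ
  hdat : ∀ c, FD (dec c) ∨ Lim (dec c)

/-- pairing of a function on codes with a finite combination of codes -/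
noncomputable abbrev ev (φ : C → ℝ) : (C →₀ ℝ) →ₗ[ℝ] ℝ := Finsupp.linearCombination ℝ φ

theorem ev_congr {φ ψ : C → ℝ} {v : C →₀ ℝ} (h : ∀ i ∈ v.support, φ i = ψ i) :
    ev φ v = ev ψ v := by
  simp only [ev, Finsupp.linearCombination_apply, Finsupp.sum]
  exact Finset.sum_congr rfl fun i hi => by rw [h i hi]

theorem ev_single (φ : C → ℝ) (c : C) : ev φ (Finsupp.single c 1) = φ c := by
  simp [ev, Finsupp.linearCombination_single]

/-- the constraint at a code -/
def Cst (S : Sys C) (g : Prop) (φ : C → ℝ) (d : C) : Prop :=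
  (g → ∀ j, |ev φ (S.dec d j).1 + φ d| ≤ (S.dec d j).2) ∧ (¬ g → φ d = 0)

theorem Cst_congr (S : Sys C) {g : Prop} {φ ψ : C → ℝ} {d : C}
    (h : φ d = ψ d) (h' : g → ∀ j, ∀ i ∈ (S.dec d j).1.support, φ i = ψ i)
    (hc : Cst S g φ d) : Cst S g ψ d := by
  refine ⟨fun hg j => ?_, fun hg => ?_⟩
  · have := hc.1 hg j
    rwa [ev_congr (h' hg j), h] at this
  · rw [← h]; exact hc.2 hg

variable [LinearOrder C] [WellFoundedLT C]

/-- admissible codes -/
def Good (S : Sys C) : C → Prop :=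
  WellFounded.fix (wellFounded_lt (α := C)) fun c rec =>
    (∀ j, ∀ i ∈ (S.dec c j).1.support, i < c) ∧
    ∀ φ : C → ℝ, (∀ d, ∀ h : d < c, Cst S (rec d h) φ d) →
      ∀ j k, |ev φ (S.dec c j).1 - ev φ (S.dec c k).1| ≤ (S.dec c j).2 + (S.dec c k).2

theorem Good_iff (S : Sys C) (c : C) : Good S c ↔
    (∀ j, ∀ i ∈ (S.dec c j).1.support, i < c) ∧
    ∀ φ : C → ℝ, (∀ d, d < c → Cst S (Good S d) φ d) →
      ∀ j k, |ev φ (S.dec c j).1 - ev φ (S.dec c k).1| ≤ (S.dec c j).2 + (S.dec c k).2 := by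
  conv_lhs => rw [Good, WellFounded.fix_eq]
  rfl

/-- the set of admissible functionals -/
def KK (S : Sys C) : Set (C → ℝ) := {φ | ∀ d, Cst S (Good S d) φ d}

open Classical in
/-- one step of the recursive extension -/
noncomputable def extStep (S : Sys C) (D : Set C) (φ ψ : C → ℝ) (c : C) : ℝ :=
  if c ∈ D then φ c else
    if Good S c then ⨆ j, (-(S.dec c j).2 - ev ψ (S.dec c j).1) else 0

open Classical in
/-- the recursive extension -/
noncomputable def extFun (S : Sys C) (D : Set C) (φ : C → ℝ) : C → ℝ :=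
  WellFounded.fix (wellFounded_lt (α := C)) fun c rec =>
    extStep S D φ (fun y => if hy : y < c then rec y hy else 0) c

open Classical in
theorem extFun_eq (S : Sys C) (D : Set C) (φ : C → ℝ) (c : C) : extFun S D φ c =
    extStep S D φ (fun y => if y < c then extFun S D φ y else 0) c := by
  conv_lhs => rw [extFun, WellFounded.fix_eq]
  rfl

theorem extFun_mem (S : Sys C) (D : Set C) (φ : C → ℝ) {c : C} (h : c ∈ D) :
    extFun S D φ c = φ c := by
  rw [extFun_eq, extStep, if_pos h]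

theorem Good.supp {S : Sys C} {c : C} (h : Good S c) (j : ℕ) {i : C}
    (hi : i ∈ (S.dec c j).1.support) : i < c := ((Good_iff S c).1 h).1 j i hi

theorem extFun_good (S : Sys C) (D : Set C) (φ : C → ℝ) {c : C} (h : c ∉ D)
    (hg : Good S c) :
    extFun S D φ c = ⨆ j, (-(S.dec c j).2 - ev (extFun S D φ) (S.dec c j).1) := by
  rw [extFun_eq, extStep, if_neg h, if_pos hg]
  congr 1
  funext j
  congr 1
  apply ev_congr
  intro i hi
  simp [hg.supp j hi]

theorem extFun_bad (S : Sys C) (D : Set C) (φ : C → ℝ) {c : C} (h : c ∉ D)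
    (hg : ¬ Good S c) : extFun S D φ c = 0 := by
  rw [extFun_eq, extStep, if_neg h, if_neg hg]

/-- sets closed under the dependencies of good codes -/
def HC (S : Sys C) (D : Set C) : Prop :=
  ∀ c ∈ D, Good S c → ∀ j, ∀ i ∈ (S.dec c j).1.support, i ∈ D

theorem exists_ext (S : Sys C) (D : Set C) (hD : HC S D)
    (φ : C → ℝ) (hc : ∀ c ∈ D, Cst S (Good S c) φ c) :
    ∃ ψ ∈ KK S, ∀ c ∈ D, ψ c = φ c := by
  have hC : ∀ c, Cst S (Good S c) (extFun S D φ) c := by
    intro c
    induction c using WellFoundedLT.induction with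
    | _ c ih =>
      by_cases hcD : c ∈ D
      · refine Cst_congr S (extFun_mem S D φ hcD).symm ?_ (hc c hcD)
        intro hg j i hi
        exact (extFun_mem S D φ (hD c hcD hg j i hi)).symm
      · by_cases hg : Good S c
        · obtain ⟨h1, h2⟩ := (Good_iff S c).1 hg
          have h3 := h2 _ ih
          refine ⟨fun _ j => ?_, fun h => absurd hg h⟩
          rw [extFun_good S D φ hcD hg]
          have hle : ∀ k, -(S.dec c k).2 - ev (extFun S D φ) (S.dec c k).1 ≤
              (S.dec c j).2 - ev (extFun S D φ) (S.dec c j).1 := by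
            intro k
            have := (abs_le.1 (h3 j k)).2
            linarith
          rw [abs_le]
          constructor
          · have : -(S.dec c j).2 - ev (extFun S D φ) (S.dec c j).1 ≤
              ⨆ k, (-(S.dec c k).2 - ev (extFun S D φ) (S.dec c k).1) :=
              le_ciSup (f := fun k => (-(S.dec c k).2 - ev (extFun S D φ) (S.dec c k).1))
                ⟨_, by rintro _ ⟨k, rfl⟩; exact hle k⟩ j
            linarith
          · have : (⨆ k, (-(S.dec c k).2 - ev (extFun S D φ) (S.dec c k).1)) ≤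
              (S.dec c j).2 - ev (extFun S D φ) (S.dec c j).1 := ciSup_le hle
            linarith
        · exact ⟨fun h => absurd h hg, fun _ => extFun_bad S D φ hcD hg⟩
  exact ⟨extFun S D φ, hC, fun c h => extFun_mem S D φ h⟩

theorem HC_Iio (S : Sys C) (c : C) : HC S (Iio c) :=
  fun _ hd hg j _ hi => lt_trans (hg.supp j hi) hd

theorem HC_Iic (S : Sys C) (c : C) : HC S (Iic c) :=
  fun _ hd hg j _ hi => (lt_of_lt_of_le (hg.supp j hi) hd).le

theorem KK_nonempty (S : Sys C) : (KK S).Nonempty := by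
  obtain ⟨ψ, h, -⟩ := exists_ext S ∅ (fun c hc => absurd hc (notMem_empty c)) 0 (by simp)
  exact ⟨ψ, h⟩

theorem KK_bdd (S : Sys C) (c : C) : ∃ B : ℝ, ∀ φ ∈ KK S, |φ c| ≤ B := by
  induction c using WellFoundedLT.induction with
  | _ c ih =>
    by_cases hg : Good S c
    · obtain ⟨h1, -⟩ := (Good_iff S c).1 hg
      choose! B hB using ih
      refine ⟨(S.dec c 0).2 + ∑ i ∈ (S.dec c 0).1.support, |(S.dec c 0).1 i| * B i,
        fun φ hφ => ?_⟩
      have h2 := (hφ c).1 hg 0
      have h3 : |ev φ (S.dec c 0).1| ≤ ∑ i ∈ (S.dec c 0).1.support, |(S.dec c 0).1 i| * B i := by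
        simp only [ev, Finsupp.linearCombination_apply, Finsupp.sum, smul_eq_mul]
        refine (Finset.abs_sum_le_sum_abs _ _).trans (Finset.sum_le_sum fun i hi => ?_)
        rw [abs_mul]
        exact mul_le_mul_of_nonneg_left (hB i (h1 0 i hi) φ hφ) (abs_nonneg _)
      rw [abs_le] at h2 h3 ⊢
      constructor <;> linarith [h2.1, h2.2, h3.1, h3.2]
    · exact ⟨0, fun φ hφ => by rw [(hφ c).2 hg]; simp⟩

omit [LinearOrder C] [WellFoundedLT C] in
theorem continuous_ev (v : C →₀ ℝ) : Continuous fun φ : C → ℝ => ev φ v := by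
  simp only [ev, Finsupp.linearCombination_apply, Finsupp.sum, smul_eq_mul]
  fun_prop

theorem KK_closed (S : Sys C) : IsClosed (KK S) := by
  have : KK S =
      (⋂ d : C, ({φ | Good S d → ∀ j, |ev φ (S.dec d j).1 + φ d| ≤ (S.dec d j).2} ∩
        {φ | ¬ Good S d → φ d = 0})) := by
    ext φ
    simp only [KK, Cst, mem_ofPred_eq, mem_inter_iff, mem_iInter]
  rw [this]
  refine isClosed_iInter fun d => IsClosed.inter ?_ ?_
  · simp only [ofPred_forall]
    refine isClosed_iInter fun _ => isClosed_iInter fun j => ?_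
    exact isClosed_le (((continuous_ev _).add (continuous_apply d)).abs) continuous_const
  · simp only [ofPred_forall]
    refine isClosed_iInter fun _ => ?_
    exact isClosed_eq (continuous_apply d) continuous_const

theorem KK_compact (S : Sys C) : IsCompact (KK S) := by
  choose B hB using KK_bdd S
  refine IsCompact.of_isClosed_subset (isCompact_univ_pi fun c : C => isCompact_Icc
    (a := -(B c)) (b := B c)) (KK_closed S) ?_
  intro φ hφ c _
  exact abs_le.1 (hB c φ hφ)

instance (S : Sys C) : CompactSpace (KK S) := isCompact_iff_compactSpace.mp (KK_compact S)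

instance (S : Sys C) : Nonempty (KK S) := (KK_nonempty S).to_subtype

/-- the ambient Banach space -/
def Amb (S : Sys C) : Type u := C(KK S, ℝ)

noncomputable instance (S : Sys C) : NormedAddCommGroup (Amb S) :=
  inferInstanceAs (NormedAddCommGroup C(KK S, ℝ))

noncomputable instance (S : Sys C) : NormedSpace ℝ (Amb S) :=
  inferInstanceAs (NormedSpace ℝ C(KK S, ℝ))

instance (S : Sys C) : CompleteSpace (Amb S) :=
  inferInstanceAs (CompleteSpace C(KK S, ℝ))

/-- evaluation map -/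
noncomputable def ioc (S : Sys C) : (C →₀ ℝ) →ₗ[ℝ] C(KK S, ℝ) where
  toFun v := ⟨fun φ => ev φ.1 v, (continuous_ev v).comp continuous_subtype_val⟩
  map_add' v w := by ext φ; simp
  map_smul' a v := by ext φ; simp

/-- evaluation map -/
noncomputable def io (S : Sys C) : (C →₀ ℝ) →ₗ[ℝ] Amb S := ioc S

/-- evaluation at a functional -/
noncomputable def at' (S : Sys C) (φ : KK S) : Amb S →L[ℝ] ℝ :=
  LinearMap.mkContinuous
    { toFun := fun f => (show C(KK S, ℝ) from f) φ
      map_add' := fun _ _ => rfl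
      map_smul' := fun _ _ => rfl } 1 (fun f => by
      rw [one_mul]
      exact (show C(KK S, ℝ) from f).norm_coe_le_norm φ)

theorem at'_io (S : Sys C) (φ : KK S) (v : C →₀ ℝ) : at' S φ (io S v) = ev φ.1 v := rfl

theorem at'_norm (S : Sys C) (φ : KK S) (f : Amb S) : |at' S φ f| ≤ ‖f‖ :=
  (show C(KK S, ℝ) from f).norm_coe_le_norm φ

/-- the space of the coding -/
noncomputable def XX (S : Sys C) : Submodule ℝ (Amb S) := LinearMap.range (io S)

theorem norm_io_le (S : Sys C) {v : C →₀ ℝ} {M : ℝ} (h : ∀ φ ∈ KK S, |ev φ v| ≤ M) :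
    ‖io S v‖ ≤ M := by
  obtain ⟨φ, hφ⟩ := KK_nonempty S
  have hM : 0 ≤ M := (abs_nonneg _).trans (h φ hφ)
  exact (ContinuousMap.norm_le (ioc S v) hM).2 fun φ => h φ.1 φ.2

theorem le_norm_io (S : Sys C) (v : C →₀ ℝ) {φ : C → ℝ} (h : φ ∈ KK S) :
    |ev φ v| ≤ ‖io S v‖ := (ioc S v).norm_coe_le_norm ⟨φ, h⟩

theorem exists_norm_io (S : Sys C) (v : C →₀ ℝ) : ∃ φ ∈ KK S, |ev φ v| = ‖io S v‖ := by
  obtain ⟨φ, hφ, hm⟩ := (KK_compact S).exists_isMaxOn (KK_nonempty S)
    ((continuous_ev v).abs.continuousOn)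
  exact ⟨φ, hφ, le_antisymm (le_norm_io S v hφ) (norm_io_le S fun ψ hψ => hm hψ)⟩

omit [LinearOrder C] [WellFoundedLT C] in
theorem ev_of (G : (C →₀ ℝ) →ₗ[ℝ] ℝ) (v : C →₀ ℝ) :
    ev (fun c => G (Finsupp.single c 1)) v = G v := by
  have : ev (fun c => G (Finsupp.single c 1)) = G := by
    refine Finsupp.lhom_ext' fun c => LinearMap.ext_ring ?_
    simp [ev, Finsupp.linearCombination_single]
  rw [this]

theorem functional_mem (S : Sys C) (G : (C →₀ ℝ) →ₗ[ℝ] ℝ) (hG : ∀ v, |G v| ≤ ‖io S v‖) :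
    (fun c => G (Finsupp.single c 1)) ∈ KK S := by
  refine fun d => ⟨fun hg j => ?_, fun hg => ?_⟩
  · rw [ev_of, ← map_add]
    refine (hG _).trans (norm_io_le S fun φ hφ => ?_)
    rw [map_add, ev_single]
    exact (hφ d).1 hg j
  · have := (hG (Finsupp.single d 1)).trans (norm_io_le (M := 0) S fun φ hφ => by
      rw [ev_single, (hφ d).2 hg, abs_zero])
    exact abs_nonpos_iff.1 this

theorem point_le (S : Sys C) {c : C} (hg : Good S c) (j : ℕ) :
    ‖io S ((S.dec c j).1 + Finsupp.single c 1)‖ ≤ (S.dec c j).2 :=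
  norm_io_le S fun φ hφ => by
    rw [map_add, ev_single]
    exact (hφ c).1 hg j

theorem good_norm (S : Sys C) {c : C} (hg : Good S c) (j k : ℕ) :
    ‖io S ((S.dec c j).1 - (S.dec c k).1)‖ ≤ (S.dec c j).2 + (S.dec c k).2 :=
  norm_io_le S fun φ hφ => by
    rw [map_sub]
    exact ((Good_iff S c).1 hg).2 φ (fun d _ => hφ d) j k

/-- a code whose data satisfies the norm condition is good -/
theorem good_of (S : Sys C) {c : C} (hs : ∀ j, ∀ i ∈ (S.dec c j).1.support, i < c)
    (hF : ∀ j k, ‖io S ((S.dec c j).1 - (S.dec c k).1)‖ ≤ (S.dec c j).2 + (S.dec c k).2) :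
    Good S c := by
  refine (Good_iff S c).2 ⟨hs, fun φ h j k => ?_⟩
  obtain ⟨ψ, hψ, he⟩ := exists_ext S (Iio c) (HC_Iio S c) φ h
  rw [← ev_congr (fun i hi => he i (hs j i hi)), ← ev_congr (fun i hi => he i (hs k i hi)),
    ← map_sub]
  exact (le_norm_io S _ hψ).trans (hF j k)

open Classical in
/-- extension of a functional of norm at most one over a new code -/
theorem point_ge (S : Sys C) {D : Set C} (hD : HC S D) {c : C} (hcD : c ∉ D)
    (hsD : ∀ j, ∀ i ∈ (S.dec c j).1.support, i ∈ D)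
    (G : (C →₀ ℝ) →ₗ[ℝ] ℝ) (hG : ∀ v, |G v| ≤ ‖io S v‖) (τ : ℝ)
    (hg : Good S c) (hτ : ∀ j, |G (S.dec c j).1 + τ| ≤ (S.dec c j).2) :
    ∃ ψ ∈ KK S, (∀ v : C →₀ ℝ, (v.support : Set C) ⊆ D → ev ψ v = G v) ∧ ψ c = τ := by
  have hm := functional_mem S G hG
  set γ : C → ℝ := fun c => G (Finsupp.single c 1) with hγ
  have hne : ∀ i ∈ D, i ≠ c := fun i hi h => hcD (h ▸ hi)
  obtain ⟨ψ, hψ, he⟩ := exists_ext S (insert c D) (by
      rintro d (rfl | hd) hg' j i hi
      · exact Or.inr (hsD j i hi)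
      · exact Or.inr (hD d hd hg' j i hi))
    (fun d => if d = c then τ else γ d)
    (by
      rintro d (rfl | hd)
      · refine ⟨fun _ j => ?_, fun h => absurd hg h⟩
        have : ev (fun y => if y = d then τ else γ y) (S.dec d j).1 = G (S.dec d j).1 := by
          rw [← ev_of G]
          apply ev_congr
          intro i hi
          rw [if_neg (hne i (hsD j i hi))]
        rw [this]
        simpa using hτ j
      · refine Cst_congr S (by rw [if_neg (hne d hd)]) ?_ (hm d)
        intro hg' j i hi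
        rw [if_neg (hne i (hD d hd hg' j i hi))])
  refine ⟨ψ, hψ, fun v hv => ?_, ?_⟩
  · rw [← ev_of G]
    apply ev_congr
    intro i hi
    rw [he i (Or.inr (hv hi)), if_neg (hne i (hv hi))]
  · rw [he c (Or.inl rfl), if_pos rfl]

theorem dominated {P : Type v} [AddCommGroup P] [Module ℝ P] {E : Type u}
    [NormedAddCommGroup E] [NormedSpace ℝ E] (L : P →ₗ[ℝ] E) (ξ : P →ₗ[ℝ] ℝ)
    (h : ∀ x, |ξ x| ≤ ‖L x‖) : ∃ G : E →L[ℝ] ℝ, (∀ y, |G y| ≤ ‖y‖) ∧ ∀ x, G (L x) = ξ x := by
  obtain ⟨r, hr⟩ := L.rangeRestrict.exists_rightInverse_of_surjective (LinearMap.range_rangeRestrict L)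
  have hr' : ∀ y : LinearMap.range L, L (r y) = y := fun y => by
    have := LinearMap.congr_fun hr y
    exact congrArg Subtype.val this
  let η : LinearMap.range L →L[ℝ] ℝ := LinearMap.mkContinuous (ξ.comp r) 1 (fun y => by
    rw [one_mul, Real.norm_eq_abs, LinearMap.comp_apply]
    refine (h (r y)).trans ?_
    rw [hr']
    rfl)
  obtain ⟨G, hG1, hG2⟩ := exists_extension_norm_eq (LinearMap.range L) η
  refine ⟨G, fun y => ?_, fun x => ?_⟩
  · have h3 : ‖G‖ ≤ 1 := by rw [hG2]; exact LinearMap.mkContinuous_norm_le _ zero_le_one _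
    exact (G.le_opNorm y).trans ((mul_le_mul_of_nonneg_right h3 (norm_nonneg _)).trans
      (by rw [one_mul]))
  · have h1 := hG1 ⟨L x, LinearMap.mem_range_self L x⟩
    simp only at h1
    rw [h1]
    change ξ (r ⟨L x, _⟩) = ξ x
    have h2 := h (r ⟨L x, LinearMap.mem_range_self L x⟩ - x)
    rw [map_sub, map_sub, hr', sub_self, norm_zero] at h2
    exact sub_eq_zero.1 (abs_nonpos_iff.1 h2)

end Pool.Agent.H96hom
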