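import Pool.Agent.H96hom.Iso

set_option autoImplicit false

namespace Pool.Agent.H96hom

universe u v

open Set

open scoped Cardinal

variable {C : Type u} [LinearOrder C] [WellFoundedLT C]

/-- triples: a set of codes, a relation, a set of codes -/
abbrev Tr (S : Sys C) := Set C × Submodule ℝ (Amb S × Amb S) × Set C

/-- a valid triple -/
def VT {S : Sys C} (t : Tr S) : Prop := Valid S t.1 t.2.1 t.2.2

theorem Valid.iSup' {S : Sys C} {ι : Type v} [Nonempty ι] (T : ι → Tr S)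
    (hT : ∀ i, VT (T i)) (hd : Directed (· ≤ ·) T) :
    Valid S (⋃ i, (T i).1) (⨆ i, (T i).2.1) (⋃ i, (T i).2.2) := by
  have hmem : ∀ p, p ∈ (⨆ i, (T i).2.1) ↔ ∃ i, p ∈ (T i).2.1 := by
    intro p
    refine Submodule.mem_iSup_of_directed _ ?_
    intro i j
    obtain ⟨k, h1, h2⟩ := hd i j
    exact ⟨k, h1.2.1, h2.2.1⟩
  refine ⟨HC.iUnion fun i => (hT i).hA, HC.iUnion fun i => (hT i).hB, ?_, ?_, ?_, ?_, ?_⟩
  · intro p hp
    obtain ⟨i, hi⟩ := (hmem p).1 hp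
    exact (hT i).iso p hi
  · intro a ha
    obtain ⟨i, hi⟩ := mem_iUnion.1 ha
    obtain ⟨y, hy⟩ := (hT i).f1 a hi
    exact ⟨y, (hmem _).2 ⟨i, hy⟩⟩
  · intro p hp
    obtain ⟨i, hi⟩ := (hmem p).1 hp
    obtain ⟨v, hv, hvp⟩ := (hT i).f2 p hi
    exact ⟨v, fun c hc => mem_iUnion.2 ⟨i, hv c hc⟩, hvp⟩
  · intro a ha
    obtain ⟨i, hi⟩ := mem_iUnion.1 ha
    obtain ⟨y, hy⟩ := (hT i).g1 a hi
    exact ⟨y, (hmem _).2 ⟨i, hy⟩⟩
  · intro p hp
    obtain ⟨i, hi⟩ := (hmem p).1 hp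
    obtain ⟨v, hv, hvp⟩ := (hT i).g2 p hi
    exact ⟨v, fun c hc => mem_iUnion.2 ⟨i, hv c hc⟩, hvp⟩

theorem VT.iSup {S : Sys C} {ι : Type v} [Nonempty ι] (T : ι → Tr S)
    (hT : ∀ i, VT (T i)) (hd : Directed (· ≤ ·) T) : VT (⨆ i, T i) := by
  unfold VT
  rw [Prod.fst_iSup, Prod.snd_iSup, Prod.fst_iSup, Prod.snd_iSup]
  exact Valid.iSup' T hT hd

/-- what one step should achieve -/
def Nxt {S : Sys C} (t : Tr S) (i : C) (t' : Tr S) : Prop :=
  t ≤ t' ∧ VT t' ∧ i ∈ t'.1 ∧ i ∈ t'.2.2 ∧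
    (∀ κ, ℵ₀ ≤ κ → #t.1 ≤ κ → #t'.1 ≤ κ) ∧ (∀ κ, ℵ₀ ≤ κ → #t.2.2 ≤ κ → #t'.2.2 ≤ κ)

open Classical in
/-- one step -/
noncomputable def stp (S : Sys C) (t : Tr S) (i : C) : Tr S :=
  if h : ∃ t' : Tr S, Nxt t i t' then h.choose else t

theorem le_stp (S : Sys C) (t : Tr S) (i : C) : t ≤ stp S t i := by
  unfold stp
  split_ifs with h
  · exact h.choose_spec.1
  · exact le_rfl

theorem stp_spec {S : Sys C} {t : Tr S} {i : C} (h : ∃ t' : Tr S, Nxt t i t') :
    Nxt t i (stp S t i) := by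
  unfold stp
  rw [dif_pos h]
  exact h.choose_spec

/-- the tower -/
noncomputable def tw (S : Sys C) (t0 : Tr S) : C → Tr S :=
  WellFounded.fix (wellFounded_lt (α := C)) fun i rec =>
    stp S (⨆ o : Option (Iio i), o.elim t0 fun j => rec j.1 j.2) i

/-- the union of the earlier stages -/
noncomputable def bel (S : Sys C) (t0 : Tr S) (i : C) : Tr S :=
  ⨆ o : Option (Iio i), o.elim t0 fun j => tw S t0 j.1

theorem tw_eq (S : Sys C) (t0 : Tr S) (i : C) : tw S t0 i = stp S (bel S t0 i) i := by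
  conv_lhs => rw [tw, WellFounded.fix_eq]
  rfl

theorem bel_le (S : Sys C) (t0 : Tr S) (i : C) : bel S t0 i ≤ tw S t0 i := by
  rw [tw_eq]
  exact le_stp S _ _

theorem init_le (S : Sys C) (t0 : Tr S) (i : C) : t0 ≤ tw S t0 i := by
  refine le_trans ?_ (bel_le S t0 i)
  exact le_iSup (fun o : Option (Iio i) => o.elim t0 fun j => tw S t0 j.1) none

theorem tw_lt (S : Sys C) (t0 : Tr S) {i j : C} (h : j < i) : tw S t0 j ≤ bel S t0 i :=
  le_iSup (fun o : Option (Iio i) => o.elim t0 fun j => tw S t0 j.1) (some ⟨j, h⟩)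

theorem tw_mono (S : Sys C) (t0 : Tr S) : Monotone (tw S t0) := by
  intro j i h
  rcases h.lt_or_eq with h | rfl
  · exact (tw_lt S t0 h).trans (bel_le S t0 i)
  · exact le_rfl

theorem dir_opt (S : Sys C) (t0 : Tr S) {ι : Type v} [LinearOrder ι] (f : ι → C)
    (hf : Monotone f) :
    Directed (· ≤ ·) (fun o : Option ι => o.elim t0 fun j => tw S t0 (f j)) := by
  have h0 : ∀ o : Option ι, t0 ≤ o.elim t0 fun j => tw S t0 (f j) := by
    rintro (_ | j)
    · exact le_rfl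
    · exact init_le S t0 _
  rintro (_ | i) (_ | j)
  · exact ⟨none, le_rfl, le_rfl⟩
  · exact ⟨some j, h0 _, le_rfl⟩
  · exact ⟨some i, le_rfl, h0 _⟩
  · rcases le_total i j with h | h
    · exact ⟨some j, tw_mono S t0 (hf h), le_rfl⟩
    · exact ⟨some i, le_rfl, tw_mono S t0 (hf h)⟩

theorem tw_spec {S : Sys C} (hS : Full S) (hinf : ℵ₀ < #C) (hC : ∀ c : C, #(Iic c) < #C)
    {t0 : Tr S} (ht0 : VT t0) (h1 : #t0.1 ≤ ℵ₀) (h2 : #t0.2.2 ≤ ℵ₀) (i : C) :
    VT (tw S t0 i) ∧ i ∈ (tw S t0 i).1 ∧ i ∈ (tw S t0 i).2.2 ∧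
      #(tw S t0 i).1 ≤ max ℵ₀ #(Iic i) ∧ #(tw S t0 i).2.2 ≤ max ℵ₀ #(Iic i) := by
  induction i using WellFoundedLT.induction with
  | _ i ih =>
    set κ := max ℵ₀ #(Iic i) with hκ
    have hκ0 : ℵ₀ ≤ κ := le_max_left _ _
    have hκC : κ < #C := max_lt hinf (hC i)
    have hopt : #(Option (Iio i)) ≤ κ := by
      rw [Cardinal.mk_option]
      refine Cardinal.add_le_of_le hκ0 ?_ (Cardinal.one_le_aleph0.trans hκ0)
      exact (Cardinal.mk_le_mk_of_subset Iio_subset_Iic_self).trans (le_max_right _ _)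
    have hmon : ∀ j < i, max ℵ₀ #(Iic j) ≤ κ := fun j hj =>
      max_le_max le_rfl (Cardinal.mk_le_mk_of_subset (Iic_subset_Iic.2 hj.le))
    have hval : VT (bel S t0 i) := by
      unfold bel
      refine VT.iSup _ ?_ (dir_opt S t0 (fun j : Iio i => j.1) (Subtype.mono_coe _))
      rintro (_ | j)
      · exact ht0
      · exact (ih j.1 j.2).1
    have hb1 : #(bel S t0 i).1 ≤ κ := by
      have : (bel S t0 i).1 = ⋃ o : Option (Iio i), (o.elim t0 fun j => tw S t0 j.1).1 := by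
        unfold bel
        rw [Prod.fst_iSup]
        rfl
      rw [this]
      refine (Cardinal.mk_iUnion_le_sum_mk).trans ?_
      refine (Cardinal.sum_le_sum _ (fun _ => κ) ?_).trans ?_
      · rintro (_ | j)
        · exact h1.trans hκ0
        · exact (ih j.1 j.2).2.2.2.1.trans (hmon j.1 j.2)
      · rw [Cardinal.sum_const, Cardinal.lift_id, Cardinal.lift_id]
        exact (mul_le_mul' hopt le_rfl).trans (Cardinal.mul_eq_self hκ0).le
    have hb2 : #(bel S t0 i).2.2 ≤ κ := by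
      have : (bel S t0 i).2.2 = ⋃ o : Option (Iio i), (o.elim t0 fun j => tw S t0 j.1).2.2 := by
        unfold bel
        rw [Prod.snd_iSup, Prod.snd_iSup]
        rfl
      rw [this]
      refine (Cardinal.mk_iUnion_le_sum_mk).trans ?_
      refine (Cardinal.sum_le_sum _ (fun _ => κ) ?_).trans ?_
      · rintro (_ | j)
        · exact h2.trans hκ0
        · exact (ih j.1 j.2).2.2.2.2.trans (hmon j.1 j.2)
      · rw [Cardinal.sum_const, Cardinal.lift_id, Cardinal.lift_id]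
        exact (mul_le_mul' hopt le_rfl).trans (Cardinal.mul_eq_self hκ0).le
    have hex : ∃ t' : Tr S, Nxt (bel S t0 i) i t' := by
      obtain ⟨A', B', G', h3, h4, h5, h6, h7, h8, h9, h10⟩ := Valid.step hS hval
        (hb1.trans_lt hκC) (hb2.trans_lt hκC) hinf.le (a := i)
        (fun hg j d hd => (tw_lt S t0 (hg.supp j hd)).1 (ih d (hg.supp j hd)).2.1)
        (fun hg j d hd => (tw_lt S t0 (hg.supp j hd)).2.2 (ih d (hg.supp j hd)).2.2.1)
      exact ⟨(A', G', B'), ⟨h4, h3, h5⟩, h6, h7, h8, h9, h10⟩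
    have hspec := stp_spec hex
    rw [← tw_eq] at hspec
    obtain ⟨-, h3, h4, h5, h6, h7⟩ := hspec
    exact ⟨h3, h4, h5, h6 κ hκ0 hb1, h7 κ hκ0 hb2⟩

theorem tw_total {S : Sys C} (hS : Full S) (hinf : ℵ₀ < #C) (hC : ∀ c : C, #(Iic c) < #C)
    {A B : Set C} {G : Submodule ℝ (Amb S × Amb S)} (hV : Valid S A G B) (h1 : #A ≤ ℵ₀)
    (h2 : #B ≤ ℵ₀) : ∃ G' : Submodule ℝ (Amb S × Amb S), G ≤ G' ∧ Valid S univ G' univ := by
  set t0 : Tr S := (A, G, B) with ht0
  have hsp := tw_spec hS hinf hC (t0 := t0) hV h1 h2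
  let T : Option C → Tr S := fun o => o.elim t0 fun j => tw S t0 j
  have hT : VT (⨆ o, T o) := by
    refine VT.iSup _ ?_ (dir_opt S t0 (fun j : C => j) monotone_id)
    rintro (_ | j)
    · exact hV
    · exact (hsp j).1
  have hle : ∀ o, T o ≤ ⨆ o, T o := le_iSup T
  have e1 : (⨆ o, T o).1 = univ := by
    refine eq_univ_of_forall fun c => ?_
    exact (hle (some c)).1 (hsp c).2.1
  have e2 : (⨆ o, T o).2.2 = univ := by
    refine eq_univ_of_forall fun c => ?_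
    exact (hle (some c)).2.2 (hsp c).2.2.1
  refine ⟨(⨆ o, T o).2.1, (hle none).2.1, ?_⟩
  have := hT
  unfold VT at this
  rw [e1, e2] at this
  exact this

/-- a total partial isometry is an isometry -/
theorem Valid.toIso {S : Sys C} {G : Submodule ℝ (Amb S × Amb S)} (hV : Valid S univ G univ) :
    ∃ g : XX S ≃ₗᵢ[ℝ] XX S, ∀ x y : XX S, ((x : Amb S), (y : Amb S)) ∈ G → g x = y := by
  obtain ⟨L, hL, -, -⟩ := hV.transport
  obtain ⟨r, hr⟩ := exists_section S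
  have hG : ∀ x : XX S, ((x : Amb S), io S (L (r x))) ∈ G := by
    intro x
    have := hL (r x) (fun _ _ => mem_univ _)
    rw [hr] at this
    exact this
  have huniq : ∀ x y z : Amb S, (x, y) ∈ G → (x, z) ∈ G → y = z := by
    intro x y z h1 h2
    have h3 := hV.iso _ (G.sub_mem h1 h2)
    change ‖x - x‖ = ‖y - z‖ at h3
    rw [sub_self, norm_zero] at h3
    exact sub_eq_zero.1 (norm_eq_zero.1 h3.symm)
  let g0 : XX S →ₗ[ℝ] XX S := ((io S).rangeRestrict.comp L).comp r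
  have hg0 : ∀ x : XX S, ((x : Amb S), (g0 x : Amb S)) ∈ G := hG
  let g1 : XX S →ₗᵢ[ℝ] XX S := ⟨g0, fun x => (hV.iso _ (hg0 x)).symm⟩
  have hsurj : Function.Surjective g1 := by
    obtain ⟨L', hL', -, -⟩ := hV.swap.transport
    intro y
    refine ⟨⟨io S (L' (r y)), LinearMap.mem_range_self _ _⟩, ?_⟩
    have h1 := hL' (r y) (fun _ _ => mem_univ _)
    rw [hr] at h1
    apply Subtype.ext
    exact huniq _ _ _ (hg0 _) h1
  refine ⟨LinearIsometryEquiv.ofSurjective g1 hsurj, fun x y h => ?_⟩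
  apply Subtype.ext
  exact huniq _ _ _ (hg0 x) h

end Pool.Agent.H96hom
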